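import Pool.Agent.H.MP_89f84f_ag.q4.FiN
import Pool.Agent.H.MP_89f84f_ag.q3.NsS
import Pool.Agent.H.MP_89f84f_ag.q2.Aff

set_option autoImplicit false

/-!
MP_89f84f_ag, helper22.  Evaluations of the coordinate ring at points of degree two.
-/

open AlgebraicGeometry CategoryTheory

noncomputable section

namespace Q2T.BrC

open Q2T

/-- The `k`-linear combinations of `b`. -/
def Span (k : Subfield ℂ) {N : ℕ} (b : Fin N → C2 → ℂ) : Set (C2 → ℂ) :=
  {f | ∃ c : Fin N → ℂ, (∀ i, c i ∈ k) ∧ ∀ z, f z = ∑ i, c i * b i z}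

/-- `R` is a `k`-form of `V`: the `k`-linear combinations of a basis of `V`. -/
def IsForm (k : Subfield ℂ) (V : Submodule ℂ (C2 → ℂ)) (R : Set (C2 → ℂ)) : Prop :=
  ∃ (N : ℕ) (b : Fin N → C2 → ℂ), (∀ i, b i ∈ V) ∧
    (∀ f ∈ V, ∃! c : Fin N → ℂ, ∀ z, f z = ∑ i, c i * b i z) ∧ R = Span k b

/-- A `k`-structure on the abelian surface `ℂ² / Λ` with the group `C` of the classes defined over `k`. -/
structure KStr (S : PerData) (C : AddSubgroup (Matrix (Fin 2) (Fin 2) ℂ)) (k : Subfield ℂ) where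
  le : C ≤ S.NS
  H0_mem : S.H0 ∈ C
  sat : ∀ Γ ∈ S.NS, ∀ n : ℕ, 1 ≤ n → (n : ℂ) • Γ ∈ C → Γ ∈ C
  /-- the `k`-forms -/
  R : Matrix (Fin 2) (Fin 2) ℂ → Set (C2 → ℂ)
  form : ∀ Γ ∈ C, IsForm k (S.TH ((2 : ℂ) • Γ) fun _ => 1) (R Γ)
  mul : ∀ Γ ∈ C, ∀ Γ' ∈ C, ∀ f ∈ R Γ, ∀ g ∈ R Γ', f * g ∈ R (Γ + Γ')
  zero : ∀ Γ ∈ C, ∀ f ∈ R Γ, f 0 ∈ k
  nmul : ∀ Γ ∈ C, ∀ f ∈ R Γ, ∀ n : ℤ, (fun z => f ((n : ℂ) • z)) ∈ R ((n : ℂ) ^ 2 • Γ)
  frame : ∃ v w : C2, v 0 * w 1 ≠ v 1 * w 0 ∧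
    ∀ Γ ∈ C, ∀ f ∈ R Γ, ∀ g ∈ R Γ, wro v f g ∈ R ((2 : ℂ) • Γ) ∧ wro w f g ∈ R ((2 : ℂ) • Γ)

/-- Functions on the set `f ≠ 0`. -/
abbrev Fun (f : C2 → ℂ) : Type := {z : C2 // f z ≠ 0} → ℂ

/-- The `k`-algebra of functions on the set `f ≠ 0` generated by all `g / f ^ n`, `g ∈ Q n`. -/
def Coord (k : Subfield ℂ) (Q : ℕ → Set (C2 → ℂ)) (f : C2 → ℂ) : Subalgebra k (Fun f) :=
  Algebra.adjoin k {h | ∃ (n : ℕ) (g : C2 → ℂ), g ∈ Q n ∧ ∀ z, h z = g z / f z ^ n}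

section bridge

variable {S : PerData} {C : AddSubgroup (Matrix (Fin 2) (Fin 2) ℂ)} {k : Subfield ℂ}

theorem span_coe {V : Submodule ℂ (C2 → ℂ)} {R : Set (C2 → ℂ)} (h : IsForm k V R) :
    ((Submodule.span k R : Submodule k (C2 → ℂ)) : Set (C2 → ℂ)) = R := by
  obtain ⟨N, b, -, -, rfl⟩ := h
  apply Set.Subset.antisymm _ Submodule.subset_span
  intro f hf
  induction hf using Submodule.span_induction with
  | mem x hx => exact hx
  | zero => exact ⟨0, fun i => k.zero_mem, fun z => by simp⟩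
  | add x y _ _ hx hy =>
    obtain ⟨c, hc, h1⟩ := hx
    obtain ⟨c', hc', h2⟩ := hy
    exact ⟨c + c', fun i => k.add_mem (hc i) (hc' i), fun z => by
      rw [Pi.add_apply, h1, h2, ← Finset.sum_add_distrib]
      exact Finset.sum_congr rfl fun i _ => by rw [Pi.add_apply, add_mul]⟩
  | smul a x _ hx =>
    obtain ⟨c, hc, h1⟩ := hx
    exact ⟨fun i => (a : ℂ) * c i, fun i => k.mul_mem a.2 (hc i), fun z => by
      show (a : ℂ) * x z = _
      rw [h1, Finset.mul_sum]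
      exact Finset.sum_congr rfl fun i _ => by rw [mul_assoc]⟩

theorem exists_basis {V : Submodule ℂ (C2 → ℂ)} {R : Set (C2 → ℂ)} (h : IsForm k V R) :
    ∃ (N : ℕ) (b : Module.Basis (Fin N) ℂ V),
      Submodule.span k R = Submodule.span k (Set.range fun i => (b i : C2 → ℂ)) := by
  obtain ⟨N, b, hb, hu, rfl⟩ := h
  have hli : LinearIndependent ℂ (fun i => (⟨b i, hb i⟩ : V)) := by
    rw [Fintype.linearIndependent_iff]
    intro g hg
    obtain ⟨c, -, hc⟩ := hu 0 V.zero_mem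
    have h1 : g = c := hc g fun z => by
      have h2 := congrFun (congrArg (fun x : V => (x : C2 → ℂ)) hg) z
      simp only [Submodule.coe_sum, Submodule.coe_smul, Submodule.coe_zero, Finset.sum_apply,
        Pi.smul_apply, smul_eq_mul, Pi.zero_apply] at h2
      rw [Pi.zero_apply, h2]
    have h3 : (0 : Fin N → ℂ) = c := hc 0 fun z => by simp
    intro i
    rw [h1, ← h3]
    rfl
  have hsp : ⊤ ≤ Submodule.span ℂ (Set.range fun i => (⟨b i, hb i⟩ : V)) := by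
    rintro ⟨f, hf⟩ -
    obtain ⟨c, hc, -⟩ := hu f hf
    have h1 : (⟨f, hf⟩ : V) = ∑ i, c i • (⟨b i, hb i⟩ : V) := by
      apply Subtype.ext
      funext z
      simp only [Submodule.coe_sum, Submodule.coe_smul, Finset.sum_apply, Pi.smul_apply, smul_eq_mul]
      exact hc z
    rw [h1]
    exact Submodule.sum_mem _ fun i _ => Submodule.smul_mem _ _ (Submodule.subset_span ⟨i, rfl⟩)
  refine ⟨N, Module.Basis.mk hli hsp, ?_⟩
  have h2 : (fun i => ((Module.Basis.mk hli hsp) i : C2 → ℂ)) = b := by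
    funext i
    rw [Module.Basis.mk_apply]
  rw [h2]
  apply le_antisymm
  · rw [Submodule.span_le]
    rintro f ⟨c, hc, h1⟩
    have h3 : f = ∑ i, (⟨c i, hc i⟩ : k) • b i := by
      funext z
      rw [Finset.sum_apply, h1]
      rfl
    rw [h3]
    exact Submodule.sum_mem _ fun i _ => Submodule.smul_mem _ _ (Submodule.subset_span ⟨i, rfl⟩)
  · rw [Submodule.span_le]
    rintro _ ⟨i, rfl⟩
    apply Submodule.subset_span
    refine ⟨fun j => if j = i then 1 else 0, fun j => ?_, fun z => ?_⟩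
    · show (if j = i then (1 : ℂ) else 0) ∈ k
      split_ifs
      · exact k.one_mem
      · exact k.zero_mem
    · simp

/-- The `CForm` of a `KStr`. -/
def toC (K : KStr S C k) : CForm S C k where
  le := K.le
  H0_mem := K.H0_mem
  sat := K.sat
  R Γ := Submodule.span k (K.R Γ)
  form Γ hΓ := exists_basis (K.form Γ hΓ)
  mul Γ hΓ Γ' hΓ' f hf g hg := by
    have h1 := span_coe (K.form Γ hΓ)
    have h2 := span_coe (K.form Γ' hΓ')
    exact Submodule.subset_span (K.mul Γ hΓ Γ' hΓ' f (h1 ▸ hf) g (h2 ▸ hg))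
  zero Γ hΓ f hf := by
    have h1 := span_coe (K.form Γ hΓ)
    exact K.zero Γ hΓ f (h1 ▸ hf)
  nmul Γ hΓ f hf n := by
    have h1 := span_coe (K.form Γ hΓ)
    exact Submodule.subset_span (K.nmul Γ hΓ f (h1 ▸ hf) n)
  frame := by
    obtain ⟨v, w, hvw, h⟩ := K.frame
    refine ⟨v, w, ?_, fun Γ hΓ f hf g hg => ?_⟩
    · rw [LinearIndependent.pair_iff]
      intro a b hab
      have h0 : a * v 0 + b * w 0 = 0 := congrFun hab 0
      have h1 : a * v 1 + b * w 1 = 0 := congrFun hab 1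
      have h2 : v 0 * w 1 - v 1 * w 0 ≠ 0 := sub_ne_zero.2 hvw
      constructor
      · have h3 : a * (v 0 * w 1 - v 1 * w 0) = 0 := by linear_combination w 1 * h0 - w 0 * h1
        exact (mul_eq_zero.1 h3).resolve_right h2
      · have h3 : b * (v 0 * w 1 - v 1 * w 0) = 0 := by linear_combination v 0 * h1 - v 1 * h0
        exact (mul_eq_zero.1 h3).resolve_right h2
    · have h1 := span_coe (K.form Γ hΓ)
      have h2 := h Γ hΓ f (h1 ▸ hf) g (h1 ▸ hg)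
      exact ⟨Submodule.subset_span h2.1, Submodule.subset_span h2.2⟩

theorem gz_pow (S : PerData) (u : ℤ) (n : ℕ) (z : C2) : S.gz (n * u) z = S.gz u z ^ n := by
  induction n with
  | zero => rw [Nat.cast_zero, zero_mul, pow_zero]; unfold PerData.gz; simp
  | succ n ih => rw [Nat.cast_succ, add_mul, one_mul, S.gz_add, ih, pow_succ]

/-- Elements of the coordinate ring are quotients of classical theta functions. -/
theorem coord_rep (K : KStr S C k) {K0 : KForm S k} (hK0 : ∀ (m : ℕ) (f : C2 → ℂ), f ∈ K0.R m ↔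
      (fun z => S.gz (2 * m) z * f z) ∈ (toC K).R ((m : ℂ) • S.H0)) {m : ℕ} {f f₀ : C2 → ℂ}
    (hf₀ : f₀ ∈ K0.R m) (hff : ∀ z, f z = S.gz (2 * m) z * f₀ z) {h : Fun f}
    (hh : h ∈ Coord k (fun n => K.R (((n * m : ℕ) : ℂ) • S.H0)) f) :
    ∃ (n : ℕ) (g : C2 → ℂ), g ∈ K0.R (n * m) ∧ ∀ z, h z = g z / f₀ z ^ n := by
  have hne : ∀ z : {z : C2 // f z ≠ 0}, f₀ z ≠ 0 := fun z h0 => z.2 (by rw [hff, h0, mul_zero])
  induction hh using Algebra.adjoin_induction with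
  | mem x hx =>
    obtain ⟨n, g, hg, hx⟩ := hx
    refine ⟨n, fun z => (S.gz (2 * ((n * m : ℕ) : ℤ)) z)⁻¹ * g z, ?_, fun z => ?_⟩
    · rw [hK0]
      have h1 : (fun z => S.gz (2 * ((n * m : ℕ) : ℤ)) z * ((S.gz (2 * ((n * m : ℕ) : ℤ)) z)⁻¹ * g z)) = g := by
        funext z
        rw [← mul_assoc, mul_inv_cancel₀ (S.gz_ne _ _), one_mul]
      rw [h1]
      exact Submodule.subset_span hg
    · rw [hx z, hff]
      have h2 : S.gz (2 * ((n * m : ℕ) : ℤ)) (z : C2) = S.gz (2 * m) z ^ n := by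
        rw [← gz_pow]
        congr 1
        push_cast
        ring
      show _ = ((S.gz (2 * ((n * m : ℕ) : ℤ)) (z : C2))⁻¹ * g z) / f₀ z ^ n
      rw [h2, mul_pow]
      have h3 := S.gz_ne (2 * m) (z : C2)
      have h4 := hne z
      field_simp
  | algebraMap c =>
    refine ⟨0, c • fun _ => (1 : ℂ), ?_, fun z => ?_⟩
    · rw [zero_mul]
      exact (K0.R 0).smul_mem c K0.Aff_one
    · show (c : ℂ) = (c : ℂ) * 1 / f₀ z ^ 0
      rw [pow_zero, div_one, mul_one]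
  | add x y _ _ hx hy =>
    obtain ⟨n, g, hg, h⟩ := hx
    obtain ⟨n', g', hg', h'⟩ := hy
    refine ⟨n + n', g * f₀ ^ n' + f₀ ^ n * g', ?_, fun z => ?_⟩
    · rw [add_mul]
      exact (K0.R _).add_mem (K0.mul _ _ _ _ hg (K0.Aff_pow hf₀ n')) (K0.mul _ _ _ _ (K0.Aff_pow hf₀ n) hg')
    · rw [Pi.add_apply, h, h', div_add_div _ _ (pow_ne_zero _ (hne z)) (pow_ne_zero _ (hne z)), pow_add]
      rfl
  | mul x y _ _ hx hy =>
    obtain ⟨n, g, hg, h⟩ := hx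
    obtain ⟨n', g', hg', h'⟩ := hy
    refine ⟨n + n', g * g', ?_, fun z => ?_⟩
    · rw [add_mul]
      exact K0.mul _ _ _ _ hg hg'
    · rw [Pi.mul_apply, Pi.mul_apply, h, h', pow_add, div_mul_div_comm]

variable [NumberField k]

/-- Homomorphisms of the coordinate ring to quadratic extensions. -/
theorem coord_eval (K : KStr S C k)
    (hdense : ∀ {K0 : KForm S k}, (∀ (m : ℕ) (f : C2 → ℂ), f ∈ K0.R m ↔
      (fun z => S.gz (2 * m) z * f z) ∈ (toC K).R ((m : ℂ) • S.H0)) → ∀ {M : ℤ} {F : C2 → ℂ}, F ∈ S.Th M 0 0 →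
      (∀ z, Module.finrank k (K0.fld z) = 2 → F z = 0) → F = 0) {m : ℕ} (hm : 0 < m)
    {f : C2 → ℂ} (hf : f ∈ K.R ((m : ℂ) • S.H0)) (b : Coord k (fun n => K.R (((n * m : ℕ) : ℂ) • S.H0)) f)
    (hb : ¬ IsNilpotent b) :
    ∃ (L : Type) (_ : Field L) (_ : Algebra k L)
      (ψ : Coord k (fun n => K.R (((n * m : ℕ) : ℂ) • S.H0)) f →ₐ[k] L),
      Module.finrank k L = 2 ∧ ψ b ≠ 0 ∧
        ∃ r : Coord k (fun n => K.R (((n * m : ℕ) : ℂ) • S.H0)) f, ∀ c : k, ψ r ≠ algebraMap k L c := by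
  obtain ⟨K0, hK0⟩ := (toC K).exists_kform0
  obtain ⟨f₀, hff₀⟩ : ∃ f₀ : C2 → ℂ, f₀ = fun z => (S.gz (2 * m) z)⁻¹ * f z := ⟨_, rfl⟩
  have hff : ∀ z, f z = S.gz (2 * m) z * f₀ z := fun z => by
    rw [hff₀, ← mul_assoc, mul_inv_cancel₀ (S.gz_ne _ _), one_mul]
  have hf₀ : f₀ ∈ K0.R m := by
    rw [hK0]
    have h1 : (fun z => S.gz (2 * m) z * f₀ z) = f := funext fun z => (hff z).symm
    rw [h1]
    exact Submodule.subset_span hf
  have hrep := fun (h : Coord k (fun n => K.R (((n * m : ℕ) : ℂ) • S.H0)) f) => coord_rep K hK0 hf₀ hff h.2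
  obtain ⟨n, g, hg, hbg⟩ := hrep b
  -- a point of degree two
  have hF : f₀ * g ∈ K0.R (m + n * m) := K0.mul _ _ _ _ hf₀ hg
  have hF0 : f₀ * g ≠ 0 := by
    intro h0
    apply hb
    refine ⟨1, ?_⟩
    rw [pow_one]
    apply Subtype.ext
    funext z
    show (b : Fun f) z = 0
    rw [hbg z]
    have h1 : f₀ z * g z = 0 := congrFun h0 z
    have h3 : f₀ z ≠ 0 := fun h0 => z.2 (by rw [hff, h0, mul_zero])
    rw [(mul_eq_zero.1 h1).resolve_left h3, zero_div]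
  obtain ⟨z, hz2, hz⟩ : ∃ z, Module.finrank k (K0.fld z) = 2 ∧ (f₀ * g) z ≠ 0 := by
    by_contra hcon
    push Not at hcon
    exact hF0 (hdense hK0 (K0.mem hF) hcon)
  have hf₀z : f₀ z ≠ 0 := left_ne_zero_of_mul hz
  have hgz : g z ≠ 0 := right_ne_zero_of_mul hz
  have hfz : f z ≠ 0 := by
    rw [hff]
    exact mul_ne_zero (S.gz_ne _ _) hf₀z
  have hval : ∀ h : Coord k (fun n => K.R (((n * m : ℕ) : ℂ) • S.H0)) f, (h : Fun f) ⟨z, hfz⟩ ∈ K0.fld z := by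
    intro h
    obtain ⟨n', g', hg', hh⟩ := hrep h
    apply IntermediateField.subset_adjoin
    exact ⟨n' * m, g', f₀ ^ n', hg', K0.Aff_pow hf₀ n', pow_ne_zero _ hf₀z, hh _⟩
  let ψ : Coord k (fun n => K.R (((n * m : ℕ) : ℂ) • S.H0)) f →ₐ[k] K0.fld z :=
    { toFun := fun h => ⟨(h : Fun f) ⟨z, hfz⟩, hval h⟩
      map_one' := rfl
      map_mul' := fun _ _ => rfl
      map_zero' := rfl
      map_add' := fun _ _ => rfl
      commutes' := fun _ => rfl }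
  refine ⟨K0.fld z, inferInstance, inferInstance, ψ, hz2, ?_, ?_⟩
  · intro h0
    have h1 : (b : Fun f) ⟨z, hfz⟩ = 0 := congrArg Subtype.val h0
    rw [hbg] at h1
    exact div_ne_zero hgz (pow_ne_zero _ hf₀z) h1
  · -- some value is not in `k`
    obtain ⟨m', F, G, hF', hG', hG0, hc⟩ : ∃ (m' : ℕ) (F G : C2 → ℂ), F ∈ K0.R m' ∧ G ∈ K0.R m' ∧ G z ≠ 0 ∧
        F z / G z ∉ k := by
      by_contra hcon
      push Not at hcon
      have h1 : K0.fld z = ⊥ := by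
        rw [eq_bot_iff]
        unfold KForm.fld
        rw [IntermediateField.adjoin_le_iff]
        rintro _ ⟨m', F, G, hF', hG', hG0, rfl⟩
        rw [SetLike.mem_coe, IntermediateField.mem_bot]
        exact ⟨⟨_, hcon m' F G hF' hG' hG0⟩, rfl⟩
      have h2 : Module.finrank k (K0.fld z) = 1 := by
        rw [h1]
        exact IntermediateField.finrank_bot
      omega
    obtain ⟨e, rfl⟩ : ∃ e, m = e + 1 := ⟨m - 1, by omega⟩
    -- elements of the ring from classical theta functions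
    have hmk : ∀ g' ∈ K0.R (m' * (e + 1)), ∃ r : Coord k (fun n => K.R (((n * (e + 1) : ℕ) : ℂ) • S.H0)) f,
        (r : Fun f) ⟨z, hfz⟩ = g' z / f₀ z ^ m' := by
      intro g' hg'
      have h1 := (hK0 _ _).1 hg'
      have hNS : (((m' * (e + 1) : ℕ) : ℂ)) • S.H0 ∈ C := by
        have h2 := C.nsmul_mem K.H0_mem (m' * (e + 1))
        rwa [← Nat.cast_smul_eq_nsmul ℂ] at h2
      have h3 := span_coe (K.form _ hNS)
      have h4 : (fun w => S.gz (2 * ((m' * (e + 1) : ℕ) : ℤ)) w * g' w) ∈ K.R (((m' * (e + 1) : ℕ) : ℂ) • S.H0) :=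
        h3 ▸ h1
      refine ⟨⟨fun w => (S.gz (2 * ((m' * (e + 1) : ℕ) : ℤ)) w * g' w) / f w ^ m', Algebra.subset_adjoin
        ⟨m', _, h4, fun w => rfl⟩⟩, ?_⟩
      show (S.gz (2 * ((m' * (e + 1) : ℕ) : ℤ)) z * g' z) / f z ^ m' = g' z / f₀ z ^ m'
      have h5 : S.gz (2 * ((m' * (e + 1) : ℕ) : ℤ)) z = S.gz (2 * ((e + 1 : ℕ) : ℤ)) z ^ m' := by
        rw [← gz_pow]
        congr 1
        push_cast
        ring
      rw [h5, hff, mul_pow, mul_div_mul_left _ _ (pow_ne_zero _ (S.gz_ne _ _))]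
    have hFG : F * G ^ e ∈ K0.R (m' * (e + 1)) := by
      have h1 := K0.mul _ _ _ _ hF' (K0.Aff_pow' hG' e)
      have h2 : m' + m' * e = m' * (e + 1) := by ring
      rwa [h2] at h1
    obtain ⟨r₁, hr₁⟩ := hmk _ hFG
    obtain ⟨r₂, hr₂⟩ := hmk _ (K0.Aff_pow' hG' (e + 1))
    by_contra hcon
    push Not at hcon
    obtain ⟨c₁, h₁⟩ := hcon r₁
    obtain ⟨c₂, h₂⟩ := hcon r₂
    apply hc
    have e₁ : (F z * G z ^ e) / f₀ z ^ m' = c₁ := by
      have h6 : (r₁ : Fun f) ⟨z, hfz⟩ = c₁ := congrArg Subtype.val h₁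
      rw [← h6, hr₁]
      rfl
    have e₂ : G z ^ (e + 1) / f₀ z ^ m' = c₂ := by
      have h6 : (r₂ : Fun f) ⟨z, hfz⟩ = c₂ := congrArg Subtype.val h₂
      rw [← h6, hr₂]
      rfl
    have e₃ : F z / G z = (c₁ : ℂ) / c₂ := by
      rw [← e₁, ← e₂, div_div_div_cancel_right₀ (pow_ne_zero _ hf₀z), pow_succ,
        mul_comm (F z), mul_div_mul_left _ _ (pow_ne_zero _ hG0)]
    rw [e₃]
    exact k.div_mem c₁.2 c₂.2

end bridge

end Q2T.BrC
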