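import Pool.Agent.H.MP_89f84f_ag.q4.BrC
import Pool.Agent.H.MP_89f84f_ag.q4.Stu

set_option autoImplicit false

/-!
MP_89f84f_ag, helper22.  The theorem of `SimpleSurfaces.lean`.
-/

open AlgebraicGeometry CategoryTheory

noncomputable section

namespace Pool.Agent.H.MP_89f84f_ag.SimpleSurfaces

/-- The `PerData` of a `Period`. -/
def Period.toPer (S : Period) : Q2T.PerData where
  τ := !![S.τ11, S.τ12; S.τ12, S.τ22]
  d := S.d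
  d_pos := S.d_pos
  symm := rfl
  pos := S.im_pos
  det_pos := S.im_det

variable {S : Period}

theorem mem_lat (z : C2) : z ∈ S.toPer.Lat ↔ z ∈ Lat S := by
  constructor
  · rintro ⟨p, q, rfl⟩
    exact ⟨p 0, p 1, q 0, q 1, rfl, rfl⟩
  · rintro ⟨p, q, r, s, h0, h1⟩
    refine ⟨![p, q], ![r, s], ?_⟩
    funext i
    fin_cases i
    · exact h0
    · exact h1

theorem hm_eq (H : Matrix (Fin 2) (Fin 2) ℂ) (z w : C2) : Q2T.hm H z w = hm H z w := rfl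

theorem H0_eq : S.toPer.H0 = H0 S := by
  have hD : ((S.toPer.D : ℝ) : ℂ) = (S.τ11.im * S.τ22.im - S.τ12.im ^ 2 : ℂ) := by
    show (((S.τ11.im * S.τ22.im - S.τ12.im ^ 2 : ℝ)) : ℂ) = _
    push_cast
    rfl
  ext i j
  fin_cases i <;> fin_cases j
  · show ((S.τ22.im : ℂ)) / ((S.toPer.D : ℝ) : ℂ) = (S.τ11.im * S.τ22.im - S.τ12.im ^ 2 : ℂ)⁻¹ * (S.τ22.im : ℂ)
    rw [hD, div_eq_mul_inv, mul_comm]
  · show (-(S.τ12.im : ℂ)) / ((S.toPer.D : ℝ) : ℂ) = (S.τ11.im * S.τ22.im - S.τ12.im ^ 2 : ℂ)⁻¹ * (-(S.τ12.im : ℂ))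
    rw [hD, div_eq_mul_inv, mul_comm]
  · show (-(S.τ12.im : ℂ)) / ((S.toPer.D : ℝ) : ℂ) = (S.τ11.im * S.τ22.im - S.τ12.im ^ 2 : ℂ)⁻¹ * (-(S.τ12.im : ℂ))
    rw [hD, div_eq_mul_inv, mul_comm]
  · show ((S.τ11.im : ℂ)) / ((S.toPer.D : ℝ) : ℂ) = (S.τ11.im * S.τ22.im - S.τ12.im ^ 2 : ℂ)⁻¹ * (S.τ11.im : ℂ)
    rw [hD, div_eq_mul_inv, mul_comm]

theorem mem_NS (H : Matrix (Fin 2) (Fin 2) ℂ) : H ∈ S.toPer.NS ↔ H ∈ NS S := by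
  constructor
  · rintro ⟨h1, h2⟩
    exact ⟨h1, fun x hx y hy => h2 x ((mem_lat x).2 hx) y ((mem_lat y).2 hy)⟩
  · rintro ⟨h1, h2⟩
    exact ⟨h1, fun x hx y hy => h2 x ((mem_lat x).1 hx) y ((mem_lat y).1 hy)⟩

theorem mem_TH (Γ : Matrix (Fin 2) (Fin 2) ℂ) (f : C2 → ℂ) :
    f ∈ S.toPer.TH ((2 : ℂ) • Γ) (fun _ => 1) ↔ f ∈ Theta S Γ := by
  have h1 : ∀ x z : C2, (1 : ℂ) * Complex.exp (Real.pi * (Q2T.hm ((2 : ℂ) • Γ) z x + Q2T.hm ((2 : ℂ) • Γ) x x / 2)) =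
      Complex.exp (Real.pi * (2 * hm Γ z x + hm Γ x x)) := by
    intro x z
    rw [Q2T.hm_smul, Q2T.hm_smul, hm_eq, hm_eq, one_mul]
    congr 1
    ring
  constructor
  · rintro ⟨h2, h3⟩
    refine ⟨h2, fun x hx z => ?_⟩
    rw [← h1]
    exact h3 x ((mem_lat x).2 hx) z
  · rintro ⟨h2, h3⟩
    refine ⟨h2, fun x hx z => ?_⟩
    show f (z + x) = (1 : ℂ) * _ * f z
    rw [h1]
    exact h3 x ((mem_lat x).1 hx) z

theorem der_eq {f : C2 → ℂ} (hf : Differentiable ℂ f) (v z : C2) : der v f z = fderiv ℂ f z v :=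
  (hf z).lineDeriv_eq_fderiv

theorem sq_eq (H : Mat) : sq S H = 2 * S.toPer.pf H := by
  show 2 * (S.d : ℝ) * (S.τ11.im * S.τ22.im - S.τ12.im ^ 2) * H.det.re =
    2 * ((S.d : ℝ) * (S.τ11.im * S.τ22.im - S.τ12.im ^ 2) * H.det.re)
  ring

theorem NS_eq : (S.toPer.NS : Set Mat) = NS S := Set.ext fun H => mem_NS H

theorem toNAut {σ : Mat → Mat} (h : IsAut S σ) : S.toPer.NAut σ where
  bij := by
    rw [NS_eq]
    exact h.1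
  add H hH H' hH' := h.2.1 H ((mem_NS H).1 hH) H' ((mem_NS H').1 hH')
  pf H hH := by
    have h1 := h.2.2.1 H ((mem_NS H).1 hH)
    rw [sq_eq, sq_eq] at h1
    linarith
  H0 := by
    rw [H0_eq]
    exact h.2.2.2

variable {G : Set (Mat → Mat)}

theorem mem_Fix (hG : ∀ σ ∈ G, IsAut S σ) (H : Mat) :
    H ∈ S.toPer.Fix G (fun σ h => toNAut (hG σ h)) ↔ H ∈ Fix S G := by
  constructor
  · rintro ⟨h1, h2⟩
    exact ⟨(mem_NS H).1 h1, h2⟩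
  · rintro ⟨h1, h2⟩
    exact ⟨(mem_NS H).2 h1, h2⟩

variable {k : Subfield ℂ}

theorem K_diff (K : KStr S (Fix S G) k) {Γ : Mat} (hΓ : Γ ∈ Fix S G) {f : C2 → ℂ} (hf : f ∈ K.R Γ) :
    Differentiable ℂ f := by
  obtain ⟨N, b, hb, -, hR⟩ := K.form Γ hΓ
  rw [hR] at hf
  obtain ⟨c, -, hc⟩ := hf
  have h1 : f = fun z => ∑ i, c i * b i z := funext hc
  rw [h1]
  exact Differentiable.fun_sum fun i _ => (hb i).1.const_mul (c i)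

/-- The old structure. -/
def KStr.old (hG : ∀ σ ∈ G, IsAut S σ) (K : KStr S (Fix S G) k) :
    Q2T.BrC.KStr S.toPer (S.toPer.Fix G (fun σ h => toNAut (hG σ h))) k where
  le := Q2T.PerData.fix_le
  H0_mem := Q2T.PerData.fix_H0
  sat Γ hΓ n hn h := Q2T.PerData.fix_sat hΓ hn h
  R := K.R
  form Γ hΓ := by
    obtain ⟨N, b, hb, hu, hR⟩ := K.form Γ ((mem_Fix hG Γ).1 hΓ)
    exact ⟨N, b, fun i => (mem_TH Γ _).2 (hb i), fun f hf => hu f ((mem_TH Γ f).1 hf), hR⟩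
  mul Γ hΓ Γ' hΓ' f hf g hg := K.mul Γ ((mem_Fix hG Γ).1 hΓ) Γ' ((mem_Fix hG Γ').1 hΓ') f hf g hg
  zero Γ hΓ := K.zero Γ ((mem_Fix hG Γ).1 hΓ)
  nmul Γ hΓ := K.nmul Γ ((mem_Fix hG Γ).1 hΓ)
  frame := by
    obtain ⟨v, w, hvw, h⟩ := K.frame
    refine ⟨v, w, hvw, fun Γ hΓ f hf g hg => ?_⟩
    have hΓ' := (mem_Fix hG Γ).1 hΓ
    have h1 := h Γ hΓ' f hf g hg
    have hw : ∀ u : C2, Q2T.wro u f g = fun z => f z * der u g z - g z * der u f z := by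
      intro u
      funext z
      rw [der_eq (K_diff K hΓ' hf), der_eq (K_diff K hΓ' hg)]
      rfl
    rw [hw v, hw w]
    exact h1

theorem coord_eq (hG : ∀ σ ∈ G, IsAut S σ) (K : KStr S (Fix S G) k) (m : ℕ) (f : C2 → ℂ) :
    Coord K m f = Q2T.BrC.Coord k (fun n => (K.old hG).R (((n * m : ℕ) : ℂ) • S.toPer.H0)) f := by
  rw [H0_eq]
  rfl

theorem simple_old (hS : Simple S) : S.toPer.Simple := fun x hx y hy c h =>
  hS x ((mem_lat x).1 hx) y ((mem_lat y).1 hy) c h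

theorem main (S : Period) (hS : Simple S) (G : Set (Mat → Mat)) (hG : ∀ σ ∈ G, IsAut S σ)
    (hδ : ∀ σ ∈ G, ∀ Γ ∈ NS S, ∀ b : ℕ, sq S Γ + 1 = b ^ 2 → sq S (Γ - σ Γ) ≠ -2)
    (h2 : ¬ IsSquare (2 * S.d) ∨ ∃ H ∈ Fix S G, ∀ r : ℝ, H ≠ (r : ℂ) • H0 S)
    (k : Subfield ℂ) [NumberField k] (K : KStr S (Fix S G) k) (m : ℕ) (hm : 0 < m)
    (f : C2 → ℂ) (hf : f ∈ K.R ((m : ℂ) • H0 S)) : QuadDense k (Coord K m f) := by
  rw [coord_eq hG]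
  have h2' : ¬ IsSquare (2 * S.toPer.d) ∨
      ∃ H ∈ S.toPer.Fix G (fun σ h => toNAut (hG σ h)), ∀ r : ℝ, H ≠ (r : ℂ) • S.toPer.H0 := by
    rcases h2 with h2 | ⟨H, hH, h2⟩
    · exact Or.inl h2
    · refine Or.inr ⟨H, (mem_Fix hG H).2 hH, fun r => ?_⟩
      rw [H0_eq]
      exact h2 r
  have hδ' : ∀ σ ∈ G, ∀ Γ ∈ S.toPer.NS, ∀ b : ℕ, 2 * S.toPer.pf Γ + 1 = (b : ℝ) ^ 2 →
      S.toPer.pf (Γ - σ Γ) ≠ -1 := by
    intro σ hσ Γ hΓ b hb h3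
    refine hδ σ hσ Γ ((mem_NS Γ).1 hΓ) b ?_ ?_
    · rw [sq_eq]
      exact hb
    · rw [sq_eq, h3]
      norm_num
  have hf' : f ∈ (K.old hG).R ((m : ℂ) • S.toPer.H0) := by
    rw [H0_eq]
    exact hf
  intro A j hj hover hd
  exact Q2T.dense_of_evals k (Q2T.BrC.Coord k (fun n => (K.old hG).R (((n * m : ℕ) : ℂ) • S.toPer.H0)) f)
    (Q2T.BrC.coord_eval (K.old hG) (fun hK0 _ _ hF hz =>
      (Q2T.BrC.toC (K.old hG)).dense_quad_fix (simple_old hS).aniso hδ' h2' hK0 hF hz) hm hf') A j hover hd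

end Pool.Agent.H.MP_89f84f_ag.SimpleSurfaces
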