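import Pool.Agent.H.MP_89f84f_ag.q3.NsQ
import Pool.Agent.H.MP_89f84f_ag.q3.NsT

set_option autoImplicit false

open Complex Topology Filter Asymptotics Metric Set

namespace Q2T

private theorem IpA_herm {H : Matrix (Fin 2) (Fin 2) ℂ} (hH : H.IsHermitian) :
    (H 0 0).im = 0 ∧ (H 1 1).im = 0 ∧ (H 1 0).re = (H 0 1).re ∧ (H 1 0).im = -(H 0 1).im := by
  have h : ∀ i j, (starRingEnd ℂ) (H j i) = H i j := fun i j => by
    have := congrFun (congrFun hH i) j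
    rwa [Matrix.conjTranspose_apply] at this
  have h1 := congrArg Complex.im (h 0 0)
  have h2 := congrArg Complex.im (h 1 1)
  have h3 := congrArg Complex.re (h 1 0)
  have h4 := congrArg Complex.im (h 1 0)
  rw [Complex.conj_im] at h1 h2 h4
  rw [Complex.conj_re] at h3
  refine ⟨by linarith, by linarith, h3.symm, h4.symm⟩

private theorem IpA_det {H : Matrix (Fin 2) (Fin 2) ℂ} (hH : H.IsHermitian) :
    H.det.re = (H 0 0).re * (H 1 1).re - ((H 0 1).re ^ 2 + (H 0 1).im ^ 2) := by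
  obtain ⟨h1, h2, h3, h4⟩ := IpA_herm hH
  rw [Matrix.det_fin_two, Complex.sub_re, Complex.mul_re, Complex.mul_re, h1, h2, h3, h4]
  ring

private theorem IpA_hm {H : Matrix (Fin 2) (Fin 2) ℂ} (hH : H.IsHermitian) (z : C2) :
    (hm H z z).re = (H 0 0).re * ((z 0).re ^ 2 + (z 0).im ^ 2) + (H 1 1).re * ((z 1).re ^ 2 + (z 1).im ^ 2) +
      2 * ((H 0 1).re * ((z 0).re * (z 1).re + (z 0).im * (z 1).im) +
        (H 0 1).im * ((z 0).re * (z 1).im - (z 0).im * (z 1).re)) := by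
  obtain ⟨h1, h2, h3, h4⟩ := IpA_herm hH
  simp only [hm, Fin.sum_univ_two, Complex.add_re, Complex.mul_re, Complex.mul_im, Complex.conj_re, Complex.conj_im,
    h1, h2, h3, h4]
  ring

private theorem IpA_pd {H : Matrix (Fin 2) (Fin 2) ℂ} (hH : H.IsHermitian) (hp : PD H) :
    0 < (H 0 0).re ∧ 0 < (H 1 1).re ∧ 0 < H.det.re := by
  obtain ⟨h1, h2, h3, h4⟩ := IpA_herm hH
  have k0 : 0 < (H 0 0).re := by
    have h5 := hp ![1, 0] (by
      intro h
      have := congrFun h 0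
      simp at this)
    rw [IpA_hm hH] at h5
    simpa using h5
  have k1 : 0 < (H 1 1).re := by
    have h5 := hp ![0, 1] (by
      intro h
      have := congrFun h 1
      simp at this)
    rw [IpA_hm hH] at h5
    simpa using h5
  refine ⟨k0, k1, ?_⟩
  have h5 := hp ![-H 1 0, ((H 0 0).re : ℂ)] (by
    intro h
    have h6 : ((H 0 0).re : ℂ) = 0 := congrFun h 1
    have h7 : (H 0 0).re = 0 := by exact_mod_cast h6
    linarith)
  have h6 : (hm H ![-H 1 0, ((H 0 0).re : ℂ)] ![-H 1 0, ((H 0 0).re : ℂ)]).re = (H 0 0).re * H.det.re := by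
    rw [IpA_det hH, IpA_hm hH]
    simp only [Matrix.cons_val_zero, Matrix.cons_val_one, Complex.neg_re, Complex.neg_im,
      Complex.ofReal_re, Complex.ofReal_im, h3, h4]
    ring
  rw [h6] at h5
  exact (mul_pos_iff_of_pos_left k0).1 h5

private theorem IpA_pd' {H : Matrix (Fin 2) (Fin 2) ℂ} (hH : H.IsHermitian) (h0 : 0 < (H 0 0).re)
    (h1 : 0 < H.det.re) : PD H := by
  intro z hz
  rw [IpA_hm hH]
  rw [IpA_det hH] at h1
  obtain ⟨a, ha⟩ : ∃ r, r = (H 0 0).re := ⟨_, rfl⟩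
  obtain ⟨c, hc⟩ : ∃ r, r = (H 1 1).re := ⟨_, rfl⟩
  obtain ⟨u, hu⟩ : ∃ r, r = (H 0 1).re := ⟨_, rfl⟩
  obtain ⟨v, hv⟩ : ∃ r, r = (H 0 1).im := ⟨_, rfl⟩
  obtain ⟨x, hx⟩ : ∃ r, r = (z 0).re := ⟨_, rfl⟩
  obtain ⟨y, hy⟩ : ∃ r, r = (z 0).im := ⟨_, rfl⟩
  obtain ⟨p, hp⟩ : ∃ r, r = (z 1).re := ⟨_, rfl⟩
  obtain ⟨q, hq⟩ : ∃ r, r = (z 1).im := ⟨_, rfl⟩
  rw [← ha, ← hc, ← hu, ← hv] at h1
  rw [← ha] at h0
  rw [← ha, ← hc, ← hu, ← hv, ← hx, ← hy, ← hp, ← hq]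
  -- a * value = (a x + u p + v q)² + (a y + u q - v p)² + det (p² + q²)
  have key : a * (a * (x ^ 2 + y ^ 2) + c * (p ^ 2 + q ^ 2) + 2 * (u * (x * p + y * q) + v * (x * q - y * p))) =
      (a * x + u * p + v * q) ^ 2 + (a * y + u * q - v * p) ^ 2 + (a * c - (u ^ 2 + v ^ 2)) * (p ^ 2 + q ^ 2) := by
    ring
  have hpos : 0 < a * (a * (x ^ 2 + y ^ 2) + c * (p ^ 2 + q ^ 2) + 2 * (u * (x * p + y * q) + v * (x * q - y * p))) := by
    rw [key]
    by_cases hpq : p = 0 ∧ q = 0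
    · obtain ⟨rfl, rfl⟩ := hpq
      have hxy : ¬ (x = 0 ∧ y = 0) := by
        rintro ⟨rfl, rfl⟩
        apply hz
        funext i
        fin_cases i
        · exact Complex.ext hx.symm hy.symm
        · exact Complex.ext hp.symm hq.symm
      have h2 : 0 < x ^ 2 + y ^ 2 := by
        rcases not_and_or.1 hxy with h | h
        · have := pow_pos (abs_pos.2 h) 2
          rw [sq_abs] at this
          nlinarith [sq_nonneg y]
        · have := pow_pos (abs_pos.2 h) 2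
          rw [sq_abs] at this
          nlinarith [sq_nonneg x]
      nlinarith [mul_pos (mul_pos h0 h0) h2]
    · have h2 : 0 < p ^ 2 + q ^ 2 := by
        rcases not_and_or.1 hpq with h | h
        · have := pow_pos (abs_pos.2 h) 2
          rw [sq_abs] at this
          nlinarith [sq_nonneg q]
        · have := pow_pos (abs_pos.2 h) 2
          rw [sq_abs] at this
          nlinarith [sq_nonneg p]
      nlinarith [mul_pos h1 h2, sq_nonneg (a * x + u * p + v * q), sq_nonneg (a * y + u * q - v * p)]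
  exact (mul_pos_iff_of_pos_left h0).1 hpos

namespace PerData

variable (S : PerData)

private theorem IpA_D : 0 < S.D := by
  have := S.det_pos
  unfold D
  linarith

/-- The intersection number of two classes (`pf` is half the self-intersection number). -/
noncomputable def ip (H H' : Matrix (Fin 2) (Fin 2) ℂ) : ℝ := S.pf (H + H') - S.pf H - S.pf H'

theorem ip_comm (H H' : Matrix (Fin 2) (Fin 2) ℂ) : S.ip H H' = S.ip H' H := by
  unfold ip
  rw [add_comm H H']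
  ring

private theorem IpA_ip {H G : Matrix (Fin 2) (Fin 2) ℂ} (hH : H.IsHermitian) (hG : G.IsHermitian) :
    S.ip H G = S.d * S.D * ((H 0 0).re * (G 1 1).re + (H 1 1).re * (G 0 0).re -
      2 * ((H 0 1).re * (G 0 1).re + (H 0 1).im * (G 0 1).im)) := by
  unfold ip pf
  rw [IpA_det (hH.add hG), IpA_det hH, IpA_det hG]
  simp only [Matrix.add_apply, Complex.add_re, Complex.add_im]
  ring

private theorem IpA_hsmul (t : ℝ) {H : Matrix (Fin 2) (Fin 2) ℂ} (hH : H.IsHermitian) : ((t : ℂ) • H).IsHermitian := by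
  refine Matrix.IsHermitian.ext fun i j => ?_
  have h := hH.apply i j
  rw [Matrix.smul_apply, Matrix.smul_apply, smul_eq_mul, smul_eq_mul, star_mul', h]
  congr 1
  exact Complex.conj_ofReal t

/-- PROOF: `pf` is a quadratic form on the Hermitian matrices: `det.re = H00.re H11.re - |H01|²` (see `NsD_det` in q3/NsD.lean). -/
theorem ip_add {H H' G : Matrix (Fin 2) (Fin 2) ℂ} (hH : H.IsHermitian) (hH' : H'.IsHermitian) (hG : G.IsHermitian) :
    S.ip (H + H') G = S.ip H G + S.ip H' G := by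
  rw [IpA_ip S (hH.add hH') hG, IpA_ip S hH hG, IpA_ip S hH' hG]
  simp only [Matrix.add_apply, Complex.add_re, Complex.add_im]
  ring

theorem ip_sub {H H' G : Matrix (Fin 2) (Fin 2) ℂ} (hH : H.IsHermitian) (hH' : H'.IsHermitian) (hG : G.IsHermitian) :
    S.ip (H - H') G = S.ip H G - S.ip H' G := by
  rw [IpA_ip S (hH.sub hH') hG, IpA_ip S hH hG, IpA_ip S hH' hG]
  simp only [Matrix.sub_apply, Complex.sub_re, Complex.sub_im]
  ring

theorem ip_smul (c : ℝ) {H G : Matrix (Fin 2) (Fin 2) ℂ} (hH : H.IsHermitian) (hG : G.IsHermitian) :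
    S.ip ((c : ℂ) • H) G = c * S.ip H G := by
  rw [IpA_ip S (IpA_hsmul c hH) hG, IpA_ip S hH hG]
  simp only [Matrix.smul_apply, smul_eq_mul, Complex.re_ofReal_mul, Complex.im_ofReal_mul]
  ring

theorem ip_self (H : Matrix (Fin 2) (Fin 2) ℂ) : S.ip H H = 2 * S.pf H := by
  unfold ip
  have h : H + H = ((2 : ℝ) : ℂ) • H := by
    push_cast
    rw [two_smul]
  rw [h, S.pf_smul]
  ring

/-- PROOF: as in `dg_int` (q3/NsD.lean). -/
theorem ip_H0 {H : Matrix (Fin 2) (Fin 2) ℂ} (hH : H.IsHermitian) : S.ip H S.H0 = S.dg H := by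
  have hD := (IpA_D S).ne'
  have e00 : S.H0 0 0 = (((S.τ 1 1).im / S.D : ℝ) : ℂ) := by rw [Complex.ofReal_div]; rfl
  have e01 : S.H0 0 1 = ((-(S.τ 0 1).im / S.D : ℝ) : ℂ) := by rw [Complex.ofReal_div, Complex.ofReal_neg]; rfl
  have e11 : S.H0 1 1 = (((S.τ 0 0).im / S.D : ℝ) : ℂ) := by rw [Complex.ofReal_div]; rfl
  rw [IpA_ip S hH S.H0_herm]
  unfold dg
  rw [e00, e01, e11]
  simp only [Complex.ofReal_re, Complex.ofReal_im]
  field_simp
  ring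

theorem ip_int {H H' : Matrix (Fin 2) (Fin 2) ℂ} (hH : H ∈ S.NS) (hH' : H' ∈ S.NS) : ∃ n : ℤ, S.ip H H' = n := by
  obtain ⟨a, ha⟩ := S.pf_int (S.NS.add_mem hH hH')
  obtain ⟨b, hb⟩ := S.pf_int hH
  obtain ⟨c, hc⟩ := S.pf_int hH'
  refine ⟨a - b - c, ?_⟩
  unfold ip
  rw [ha, hb, hc]
  push_cast
  ring

/-- PROOF: as `dg_pos` (q3/NsD.lean): `H00 G11 + H11 G00 > 2 |H01| |G01|`. -/
theorem ip_pos {H G : Matrix (Fin 2) (Fin 2) ℂ} (hH : H.IsHermitian) (hG : G.IsHermitian) (hp : PD H) (hp' : PD G) :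
    0 < S.ip H G := by
  rw [IpA_ip S hH hG]
  have hd : (0 : ℝ) < S.d := by exact_mod_cast S.d_pos
  have hD := IpA_D S
  refine mul_pos (mul_pos hd hD) ?_
  obtain ⟨k0, k1, k2⟩ := IpA_pd hH hp
  obtain ⟨l0, l1, l2⟩ := IpA_pd hG hp'
  rw [IpA_det hH] at k2
  rw [IpA_det hG] at l2
  obtain ⟨a, ha⟩ : ∃ r, r = (H 0 0).re := ⟨_, rfl⟩
  obtain ⟨c, hc⟩ : ∃ r, r = (H 1 1).re := ⟨_, rfl⟩
  obtain ⟨u, hu⟩ : ∃ r, r = (H 0 1).re := ⟨_, rfl⟩
  obtain ⟨v, hv⟩ : ∃ r, r = (H 0 1).im := ⟨_, rfl⟩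
  obtain ⟨x, hx⟩ : ∃ r, r = (G 0 0).re := ⟨_, rfl⟩
  obtain ⟨y, hy⟩ : ∃ r, r = (G 1 1).re := ⟨_, rfl⟩
  obtain ⟨p, hp⟩ : ∃ r, r = (G 0 1).re := ⟨_, rfl⟩
  obtain ⟨q, hq⟩ : ∃ r, r = (G 0 1).im := ⟨_, rfl⟩
  rw [← ha, ← hc, ← hu, ← hv] at k2
  rw [← hx, ← hy, ← hp, ← hq] at l2
  rw [← ha] at k0
  rw [← hc] at k1
  rw [← hx] at l0
  rw [← hy] at l1
  rw [← ha, ← hc, ← hu, ← hv, ← hx, ← hy, ← hp, ← hq]
  have h1 : (u * p + v * q) ^ 2 ≤ (u ^ 2 + v ^ 2) * (p ^ 2 + q ^ 2) := by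
    nlinarith [sq_nonneg (u * q - v * p)]
  have h2 : (u ^ 2 + v ^ 2) * (p ^ 2 + q ^ 2) < (a * c) * (x * y) :=
    mul_lt_mul'' (by linarith) (by linarith) (by positivity) (by positivity)
  have h3 : |2 * (u * p + v * q)| < a * y + c * x := by
    refine abs_lt_of_sq_lt_sq ?_ (by positivity)
    nlinarith [sq_nonneg (a * y - c * x)]
  have h4 := (abs_lt.1 h3).2
  linarith

/-- Hodge index.
PROOF: with `p = P00 > 0`, `c = d D > 0`, `T = H00 P11 + H11 P00 - 2 Re (H01 conj P01)`: `ip H P = c T`, and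
`T² - 4 det H det P = (T - 2 (H00 / p) det P)² + 4 det P |H01 - (H00 / p) P01|² ≥ 0` (multiply by `p²`). -/
theorem hodge_ip {H P : Matrix (Fin 2) (Fin 2) ℂ} (hH : H.IsHermitian) (hP : P.IsHermitian) (hp : PD P) :
    4 * S.pf H * S.pf P ≤ S.ip H P ^ 2 := by
  rw [IpA_ip S hH hP]
  unfold pf
  obtain ⟨l0, -, l2⟩ := IpA_pd hP hp
  rw [IpA_det hP] at l2 ⊢
  rw [IpA_det hH]
  obtain ⟨a, ha⟩ : ∃ r, r = (H 0 0).re := ⟨_, rfl⟩
  obtain ⟨c, hc⟩ : ∃ r, r = (H 1 1).re := ⟨_, rfl⟩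
  obtain ⟨u, hu⟩ : ∃ r, r = (H 0 1).re := ⟨_, rfl⟩
  obtain ⟨v, hv⟩ : ∃ r, r = (H 0 1).im := ⟨_, rfl⟩
  obtain ⟨x, hx⟩ : ∃ r, r = (P 0 0).re := ⟨_, rfl⟩
  obtain ⟨y, hy⟩ : ∃ r, r = (P 1 1).re := ⟨_, rfl⟩
  obtain ⟨p, hp⟩ : ∃ r, r = (P 0 1).re := ⟨_, rfl⟩
  obtain ⟨q, hq⟩ : ∃ r, r = (P 0 1).im := ⟨_, rfl⟩
  obtain ⟨e, he⟩ : ∃ r : ℝ, r = S.d * S.D := ⟨_, rfl⟩
  rw [← hx, ← hy, ← hp, ← hq] at l2
  rw [← hx] at l0
  rw [← ha, ← hc, ← hu, ← hv, ← hx, ← hy, ← hp, ← hq, ← he]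
  have key : x ^ 2 * ((a * y + c * x - 2 * (u * p + v * q)) ^ 2 - 4 * (a * c - (u ^ 2 + v ^ 2)) * (x * y - (p ^ 2 + q ^ 2))) =
      (x * (a * y + c * x - 2 * (u * p + v * q)) - 2 * a * (x * y - (p ^ 2 + q ^ 2))) ^ 2 +
        4 * (x * y - (p ^ 2 + q ^ 2)) * ((x * u - a * p) ^ 2 + (x * v - a * q) ^ 2) := by
    ring
  have h1 : 0 ≤ x ^ 2 * ((a * y + c * x - 2 * (u * p + v * q)) ^ 2 -
      4 * (a * c - (u ^ 2 + v ^ 2)) * (x * y - (p ^ 2 + q ^ 2))) := by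
    rw [key]
    have := mul_nonneg (mul_nonneg (by norm_num : (0 : ℝ) ≤ 4) l2.le)
      (add_nonneg (sq_nonneg (x * u - a * p)) (sq_nonneg (x * v - a * q)))
    have h2 := sq_nonneg (x * (a * y + c * x - 2 * (u * p + v * q)) - 2 * a * (x * y - (p ^ 2 + q ^ 2)))
    linarith
  have h2 : 0 ≤ (a * y + c * x - 2 * (u * p + v * q)) ^ 2 -
      4 * (a * c - (u ^ 2 + v ^ 2)) * (x * y - (p ^ 2 + q ^ 2)) := by
    by_contra hcon
    push Not at hcon
    have := mul_neg_of_pos_of_neg (pow_pos l0 2) hcon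
    linarith
  have h3 := mul_nonneg (sq_nonneg e) h2
  nlinarith

/-- PROOF: `det H > 0`, so `H` or `- H` is positive definite (`H00 H11 > |H01|²`); the second is excluded by `ip_pos`. -/
theorem pd_of_ip {H P : Matrix (Fin 2) (Fin 2) ℂ} (hH : H.IsHermitian) (hP : P.IsHermitian) (hp : PD P) (h1 : 0 < S.pf H)
    (h2 : 0 < S.ip H P) : PD H := by
  have hd : (0 : ℝ) < S.d := by exact_mod_cast S.d_pos
  have hD := IpA_D S
  have h3 : 0 < H.det.re := (mul_pos_iff_of_pos_left (mul_pos hd hD)).1 h1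
  rcases lt_trichotomy (H 0 0).re 0 with h | h | h
  · exfalso
    have h4 : PD (-H) := by
      refine IpA_pd' hH.neg ?_ ?_
      · rw [Matrix.neg_apply, Complex.neg_re]
        linarith
      · rw [Matrix.det_neg, Fintype.card_fin]
        simpa using h3
    have h5 := S.ip_pos hH.neg hP h4 hp
    have h6 : S.ip (-H) P = -S.ip H P := by
      have := S.ip_smul (-1) hH hP
      push_cast at this
      rw [neg_one_smul] at this
      rw [this]
      ring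
    rw [h6] at h5
    linarith
  · exfalso
    rw [IpA_det hH, h] at h3
    nlinarith [sq_nonneg (H 0 1).re, sq_nonneg (H 0 1).im]
  · exact IpA_pd' hH h h3

/-- PROOF: `pf_pull` for `G`, `G'`, `G + G'`; `pull_add`. -/
theorem NF.ip_pull {S : PerData} {H : Matrix (Fin 2) (Fin 2) ℂ} {S' : PerData} {n : ℕ} {A : C2 ≃ₗ[ℂ] C2} (h : S.NF H S' n A)
    {G G' : Matrix (Fin 2) (Fin 2) ℂ} (hG : G.IsHermitian) (hG' : G'.IsHermitian) :
    S.ip (pull A G) (pull A G') = S'.ip G G' := by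
  unfold ip
  rw [← pull_add, h.pf_pull _ (hG.add hG'), h.pf_pull _ hG, h.pf_pull _ hG']

end PerData

end Q2T
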