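import Pool.Agent.H.MP_89f84f_ag.q4.DmA
import Pool.Agent.H.MP_89f84f_ag.q4.IpA
import Pool.Agent.H.MP_89f84f_ag.q2.BzA
import Pool.Agent.H.MP_89f84f_ag.q2.BzB
import Pool.Agent.H.MP_89f84f_ag.q2.JetD

set_option autoImplicit false

open Complex Topology Filter Asymptotics Metric Set Module

namespace Q2T

namespace PerData

variable (S : PerData)

private theorem BzN_pf {X Y : Matrix (Fin 2) (Fin 2) ℂ} (hX : X.IsHermitian) (hY : Y.IsHermitian) :
    S.pf (X - Y) = S.pf X - S.ip X Y + S.pf Y := by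
  have h1 : S.ip (X - Y) Y = S.pf (X - Y + Y) - S.pf (X - Y) - S.pf Y := rfl
  rw [sub_add_cancel, S.ip_sub hX hY hY, S.ip_self] at h1
  linarith

/-- The space `s TH (K - H) + t TH (K - H')` inside `TH K`, for coprime `s ∈ TH H`, `t ∈ TH H'`.
PROOF: as `exists_koszul` (q2/BzB.lean), with `A = TH (K - H) (ψ / χ)`, `B = TH (K - H') (ψ / χ')`, `C = TH (K - H - H') (ψ / χ / χ')`; `TH_mul`, `TH_quot`,
`SC_sub` (q3/NsA.lean), `finrank_TH`, `dvd_of_copr`; `pf (K - H) + pf (K - H') - pf (K - H - H') = pf K - ip H H'` (`ip_add`, `ip_sub`, `ip_self`). -/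
theorem exists_koszul_NS {H H' K : Matrix (Fin 2) (Fin 2) ℂ} {χ χ' ψ s t : C2 → ℂ} (hH : H ∈ S.NS) (hH' : H' ∈ S.NS)
    (hK : K ∈ S.NS) (hχ : S.SC H χ) (hχ' : S.SC H' χ') (hψ : S.SC K ψ) (h1 : PD (K - H)) (h2 : PD (K - H'))
    (h3 : PD (K - H - H')) (hs : s ∈ S.TH H χ) (ht : t ∈ S.TH H' χ') (hs0 : s ≠ 0) (ht0 : t ≠ 0) (hc : Copr s t) :
    ∃ W : Submodule ℂ (C2 → ℂ), W ≤ S.TH K ψ ∧ W ≤ (Mult s ⊓ Ent) ⊔ (Mult t ⊓ Ent) ∧
      (finrank ℂ W : ℝ) = S.pf K - S.ip H H' := by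
  classical
  have hsd : Differentiable ℂ s := hs.1
  have htd : Differentiable ℂ t := ht.1
  have hneχ : ∀ x ∈ S.Lat, χ x ≠ 0 := fun x hx h => by
    have := hχ.1 x hx
    rw [h, norm_zero] at this
    exact zero_ne_one this
  have hneχ' : ∀ x ∈ S.Lat, χ' x ≠ 0 := fun x hx h => by
    have := hχ'.1 x hx
    rw [h, norm_zero] at this
    exact zero_ne_one this
  have hSA := S.SC_sub hψ hχ
  have hSB := S.SC_sub hψ hχ'
  have hSC := S.SC_sub hSA hχ'
  have hNA := S.NS.sub_mem hK hH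
  have hNB := S.NS.sub_mem hK hH'
  have hNC := S.NS.sub_mem hNA hH'
  obtain ⟨hfA, a1⟩ := S.finrank_TH hNA h1 hSA
  obtain ⟨hfB, a2⟩ := S.finrank_TH hNB h2 hSB
  obtain ⟨hfC, a3⟩ := S.finrank_TH hNC h3 hSC
  let A := S.TH (K - H) (fun x => ψ x / χ x)
  let B := S.TH (K - H') (fun x => ψ x / χ' x)
  let C := S.TH (K - H - H') (fun x => ψ x / χ x / χ' x)
  have mulA : ∀ f ∈ A, s * f ∈ S.TH K ψ := by
    intro f hf
    have h := S.TH_mul hs hf
    rw [add_sub_cancel] at h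
    rwa [S.TH_congr (χ' := ψ) fun x hx => mul_div_cancel₀ (ψ x) (hneχ x hx)] at h
  have mulB : ∀ f ∈ B, t * f ∈ S.TH K ψ := by
    intro f hf
    have h := S.TH_mul ht hf
    rw [add_sub_cancel] at h
    rwa [S.TH_congr (χ' := ψ) fun x hx => mul_div_cancel₀ (ψ x) (hneχ' x hx)] at h
  have hCA : ∀ h ∈ C, t * h ∈ A := by
    intro f hf
    have h := S.TH_mul ht hf
    rw [add_sub_cancel] at h
    rwa [S.TH_congr (χ' := fun x => ψ x / χ x) fun x hx => mul_div_cancel₀ (ψ x / χ x) (hneχ' x hx)] at h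
  have hCB : ∀ h ∈ C, -(s * h) ∈ B := by
    intro f hf
    have h := S.TH_mul hs hf
    rw [show H + (K - H - H') = K - H' by abel] at h
    rw [S.TH_congr (χ' := fun x => ψ x / χ' x) fun x hx => by
      rw [div_right_comm]; exact mul_div_cancel₀ (ψ x / χ' x) (hneχ x hx)] at h
    exact Submodule.neg_mem _ h
  let φ : (A × B) →ₗ[ℂ] (C2 → ℂ) :=
    { toFun := fun x => s * (x.1 : C2 → ℂ) + t * (x.2 : C2 → ℂ)
      map_add' := fun x y => by
        simp only [Prod.fst_add, Prod.snd_add, Submodule.coe_add, mul_add]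
        abel
      map_smul' := fun c x => by
        simp only [Prod.smul_fst, Prod.smul_snd, Submodule.coe_smul, mul_smul_comm, smul_add,
          RingHom.id_apply] }
  let θ : C →ₗ[ℂ] (A × B) :=
    { toFun := fun h => (⟨t * (h : C2 → ℂ), hCA h h.2⟩, ⟨-(s * (h : C2 → ℂ)), hCB h h.2⟩)
      map_add' := fun x y => by
        refine Prod.ext (Subtype.ext ?_) (Subtype.ext ?_)
        · change t * ((x : C2 → ℂ) + (y : C2 → ℂ)) = t * (x : C2 → ℂ) + t * (y : C2 → ℂ)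
          rw [mul_add]
        · change -(s * ((x : C2 → ℂ) + (y : C2 → ℂ))) = -(s * (x : C2 → ℂ)) + -(s * (y : C2 → ℂ))
          rw [mul_add, neg_add]
      map_smul' := fun c x => by
        refine Prod.ext (Subtype.ext ?_) (Subtype.ext ?_)
        · change t * (c • (x : C2 → ℂ)) = c • (t * (x : C2 → ℂ))
          rw [mul_smul_comm]
        · change -(s * (c • (x : C2 → ℂ))) = c • -(s * (x : C2 → ℂ))
          rw [mul_smul_comm, smul_neg] }
  have hθi : Function.Injective θ := by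
    rw [← LinearMap.ker_eq_bot, LinearMap.ker_eq_bot']
    intro h hh
    have h1 : t * (h : C2 → ℂ) = 0 := congrArg (fun x : A × B => (x.1 : C2 → ℂ)) hh
    by_contra hne
    have hne' : (h : C2 → ℂ) ≠ 0 := fun e => hne (Subtype.ext e)
    exact mul_ne_zero_ent htd h.2.1 ht0 hne' h1
  have hθr : LinearMap.range θ = LinearMap.ker φ := by
    apply le_antisymm
    · rintro _ ⟨h, rfl⟩
      rw [LinearMap.mem_ker]
      change s * (t * (h : C2 → ℂ)) + t * -(s * (h : C2 → ℂ)) = 0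
      ring
    · rintro ⟨⟨f, hf⟩, ⟨g, hg⟩⟩ hfg
      rw [LinearMap.mem_ker] at hfg
      change s * f + t * g = 0 at hfg
      have hfd : Differentiable ℂ f := hf.1
      have hgd : Differentiable ℂ g := hg.1
      have h1 : t * g = s * (-f) := by
        have : t * g = (s * f + t * g) - s * f := by abel
        rw [this, hfg]; ring
      obtain ⟨h, hhd, hh⟩ := dvd_of_copr hsd htd hgd hs0 ht0 hc ⟨-f, hfd.neg, h1⟩
      have hf' : f = t * (-h) := by
        refine ent_cancel hsd hs0 hfd (htd.mul hhd.neg) ?_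
        have h2 : s * f = -(t * g) := by rw [h1]; ring
        rw [h2, hh]; ring
      have hhC : -h ∈ C := by
        have h5 := S.TH_quot hs hs0 hneχ hg hhd hh
        rw [show K - H' - H = K - H - H' by abel] at h5
        rw [S.TH_congr (χ' := fun x => ψ x / χ x / χ' x) fun x _ => div_right_comm _ _ _] at h5
        exact Submodule.neg_mem _ h5
      refine ⟨⟨-h, hhC⟩, ?_⟩
      refine Prod.ext (Subtype.ext ?_) (Subtype.ext ?_)
      · change t * (-h) = f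
        exact hf'.symm
      · change -(s * (-h)) = g
        rw [hh]; ring
  refine ⟨LinearMap.range φ, ?_, ?_, ?_⟩
  · rintro _ ⟨x, rfl⟩
    exact Submodule.add_mem _ (mulA _ x.1.2) (mulB _ x.2.2)
  · rintro _ ⟨x, rfl⟩
    have hx1 : Differentiable ℂ (x.1 : C2 → ℂ) := x.1.2.1
    have hx2 : Differentiable ℂ (x.2 : C2 → ℂ) := x.2.2.1
    exact Submodule.add_mem_sup ⟨⟨_, hx1, rfl⟩, hsd.mul hx1⟩ ⟨⟨_, hx2, rfl⟩, htd.mul hx2⟩
  · have e1 := LinearMap.finrank_range_add_finrank_ker φ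
    rw [← hθr, LinearMap.finrank_range_of_inj hθi, finrank_prod] at e1
    have e2 : (finrank ℂ (LinearMap.range φ) : ℝ) + (finrank ℂ C : ℝ) = (finrank ℂ A : ℝ) + (finrank ℂ B : ℝ) := by
      exact_mod_cast e1
    have a1' : (finrank ℂ A : ℝ) = S.pf (K - H) := a1
    have a2' : (finrank ℂ B : ℝ) = S.pf (K - H') := a2
    have a3' : (finrank ℂ C : ℝ) = S.pf (K - H - H') := a3
    rw [a1', a2', a3', BzN_pf S hNA.1 hH'.1, BzN_pf S hK.1 hH.1, BzN_pf S hK.1 hH'.1,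
      S.ip_sub hK.1 hH.1 hH'.1] at e2
    linarith

/-- Bezout's inequality at the origin for two classes.
PROOF: as `bezout` (q2/BzC.lean) for one point `0`: `K = k H0`, `k` large: `K - H`, `K - H'`, `K - H - H'` positive definite (`exists_sub_pd`, q3/NsQ.lean), `k ≥ n₀` of
`jets_surj` (`r = 1`, `x = 0`, `N = m + n`; q2/JetD.lean).  `ψ` from `exists_chi k 0 0`; `TH K ψ` is the image of `Th k 0 0` under multiplication by `gz k`
(`gz_mem`), so every jet of order `N` is attained by `TH K ψ`: for entire `g` take `f ∈ Th k 0 0` with `f - g / gz k ∈ Van N 0` (`1 / gz k = gz (-k)`, `gz_neg`), then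
`gz k f - g = gz k (f - g / gz k)` (`van_mul_unit`).  `local_lambda` (q2/BzA.lean), `exists_koszul_NS`, `finrank_TH`: `pf K ≥ (pf K - ip H H') + m n`. -/
theorem bezout_NS {H H' : Matrix (Fin 2) (Fin 2) ℂ} {χ χ' s t : C2 → ℂ} (hH : H ∈ S.NS) (hH' : H' ∈ S.NS)
    (hχ : S.SC H χ) (hχ' : S.SC H' χ') (hs : s ∈ S.TH H χ) (ht : t ∈ S.TH H' χ') (hs0 : s ≠ 0) (ht0 : t ≠ 0) (hc : Copr s t)
    {m n : ℕ} (hm : s ∈ Van m 0) (hn : t ∈ Van n 0) : ((m * n : ℕ) : ℝ) ≤ S.ip H H' := by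
  classical
  obtain ⟨l, hl1, hl2, hl3, hl4⟩ := local_lambda hs.1 ht.1 hm hn
  obtain ⟨n₀, hn₀⟩ := S.jets_surj (fun _ : Fin 1 => (0 : C2))
    (fun i k hik => absurd (Subsingleton.elim i k) hik) (m + n)
  obtain ⟨M1, hM1⟩ := exists_sub_pd (G := H) S.H0_pd
  obtain ⟨M2, hM2⟩ := exists_sub_pd (G := H') S.H0_pd
  obtain ⟨M3, hM3⟩ := exists_sub_pd (G := H + H') S.H0_pd
  obtain ⟨M4, hM4⟩ := exists_sub_pd (G := 0) S.H0_pd
  obtain ⟨k, hk⟩ : ∃ k : ℕ, k = n₀ + M1 + M2 + M3 + M4 := ⟨_, rfl⟩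
  obtain ⟨ψ, hψ1, hψ2⟩ := S.exists_chi (k : ℤ) 0 0
  have ec : ((k : ℤ) : ℂ) = (k : ℂ) := Int.cast_natCast k
  obtain ⟨K, hK⟩ : ∃ K, K = ((k : ℤ) : ℂ) • S.H0 := ⟨_, rfl⟩
  have hψ : S.SC K ψ := by rw [hK]; exact hψ2
  have h1 : PD (K - H) := by
    rw [hK, ec]
    exact hM1 k (by omega)
  have h2 : PD (K - H') := by
    rw [hK, ec]
    exact hM2 k (by omega)
  have h3 : PD (K - H - H') := by
    rw [hK, ec, sub_sub]
    exact hM3 k (by omega)
  have h4 : PD K := by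
    have := hM4 k (by omega)
    rwa [sub_zero, ← ec, ← hK] at this
  have hKN : K ∈ S.NS := by
    rw [hK, ec]
    have h5 : (k : ℂ) • S.H0 = k • S.H0 := Nat.cast_smul_eq_nsmul ℂ k S.H0
    rw [h5]
    exact S.NS.nsmul_mem S.H0_mem k
  obtain ⟨W, hW1, hW2, hW3⟩ := S.exists_koszul_NS hH hH' hKN hχ hχ' hψ h1 h2 h3 hs ht hs0 ht0 hc
  obtain ⟨hfin, hrk⟩ := S.finrank_TH hKN h4 hψ
  let inc : S.TH K ψ →ₗ[ℂ] Ent := Submodule.inclusion (fun f hf => hf.1)
  let L : S.TH K ψ →ₗ[ℂ] (Fin (m * n) → ℂ) := l.comp inc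
  have hLs : Function.Surjective L := by
    intro c
    obtain ⟨g, hg⟩ := hl1 c
    have hgd : Differentiable ℂ (g : C2 → ℂ) := g.2
    obtain ⟨f, hf, hfg⟩ := hn₀ k (by omega) 0 0 (fun _ z => S.gz (-(k : ℤ)) z * (g : C2 → ℂ) z)
      (fun _ => (S.gz_diff _).mul hgd)
    have hF : (fun z => S.gz (k : ℤ) z * f z) ∈ S.TH K ψ := by
      rw [hK]
      exact (S.gz_mem hψ1 f).1 hf
    refine ⟨⟨_, hF⟩, ?_⟩
    change l (inc ⟨_, hF⟩) = c
    have h5 : (fun z => S.gz (k : ℤ) z * f z) - (g : C2 → ℂ) =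
        S.gz (k : ℤ) * (f - fun z => S.gz (-(k : ℤ)) z * (g : C2 → ℂ) z) := by
      funext z
      show S.gz (k : ℤ) z * f z - (g : C2 → ℂ) z =
        S.gz (k : ℤ) z * (f z - S.gz (-(k : ℤ)) z * (g : C2 → ℂ) z)
      have h6 := S.gz_neg (k : ℤ) z
      linear_combination ((g : C2 → ℂ) z) * h6
    have h6 : l (inc ⟨_, hF⟩ - g) = 0 := by
      apply hl4
      show (fun z => S.gz (k : ℤ) z * f z) - (g : C2 → ℂ) ∈ Van (m + n) 0
      rw [h5, van_mul_unit (S.gz_diff _).continuous (S.gz_ne _ _)]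
      exact hfg 0
    rw [map_sub, sub_eq_zero] at h6
    rw [h6, hg]
  have hWk : W.comap (S.TH K ψ).subtype ≤ LinearMap.ker L := by
    rintro ⟨w, hw⟩ hwW
    rw [Submodule.mem_comap] at hwW
    rw [LinearMap.mem_ker]
    change l (inc ⟨w, hw⟩) = 0
    obtain ⟨a, ha, b, hb, hab⟩ := Submodule.mem_sup.1 (hW2 hwW)
    have e : inc ⟨w, hw⟩ = ⟨a, ha.2⟩ + ⟨b, hb.2⟩ := Subtype.ext hab.symm
    rw [e, map_add, hl2 ⟨a, ha.2⟩ ha.1, hl3 ⟨b, hb.2⟩ hb.1, add_zero]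
  have e1 := LinearMap.finrank_range_add_finrank_ker L
  rw [LinearMap.range_eq_top.2 hLs, finrank_top, Module.finrank_fin_fun] at e1
  have e2 : finrank ℂ (W.comap (S.TH K ψ).subtype) = finrank ℂ W :=
    (Submodule.comapSubtypeEquivOfLe hW1).finrank_eq
  have e3 := Submodule.finrank_mono hWk
  rw [e2] at e3
  have e5 : ((m * n : ℕ) : ℝ) + (finrank ℂ (LinearMap.ker L) : ℝ) = (finrank ℂ (S.TH K ψ) : ℝ) := by
    exact_mod_cast e1
  have e6 : (finrank ℂ W : ℝ) ≤ (finrank ℂ (LinearMap.ker L) : ℝ) := by exact_mod_cast e3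
  rw [hrk] at e5
  rw [hW3] at e6
  linarith

end PerData

end Q2T
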