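import Pool.Agent.H.MP_89f84f_ag.q3.NsT
import Pool.Agent.H.MP_89f84f_ag.q3.NsQ
import Pool.Agent.H.MP_89f84f_ag.q3.NfB
import Pool.Agent.H.MP_89f84f_ag.q2.KfB
import Pool.Agent.H.MP_89f84f_ag.q2.Fld

set_option autoImplicit false

open Complex Topology Filter Asymptotics Metric Set Module

namespace Q2T

/-- A `k`-structure on the complex abelian surface `ℂ² / Λ`, `k ⊆ ℂ`, with the group `C` of the classes of the Néron-Severi group which are
defined over `k`: for every class `Γ` in `C` a `k`-form `R Γ` of the space of canonical theta functions with Hermitian form `2 Γ` and trivial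
multipliers; the `R Γ` form a graded ring, take values in `k` at the origin, are stable under `f (z) ↦ f (n z)`, and there is a basis `v, w` of
invariant vector fields defined over `k`. -/
structure CForm (S : PerData) (C : AddSubgroup (Matrix (Fin 2) (Fin 2) ℂ)) (k : Subfield ℂ) where
  le : C ≤ S.NS
  H0_mem : S.H0 ∈ C
  sat : ∀ Γ ∈ S.NS, ∀ n : ℕ, 1 ≤ n → (n : ℂ) • Γ ∈ C → Γ ∈ C
  /-- the `k`-forms -/
  R : Matrix (Fin 2) (Fin 2) ℂ → Submodule k (C2 → ℂ)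
  form : ∀ Γ ∈ C, ∃ (N : ℕ) (b : Basis (Fin N) ℂ (S.TH ((2 : ℂ) • Γ) fun _ => 1)),
    R Γ = Submodule.span k (Set.range fun i => (b i : C2 → ℂ))
  mul : ∀ Γ ∈ C, ∀ Γ' ∈ C, ∀ f ∈ R Γ, ∀ g ∈ R Γ', f * g ∈ R (Γ + Γ')
  zero : ∀ Γ ∈ C, ∀ f ∈ R Γ, f 0 ∈ k
  nmul : ∀ Γ ∈ C, ∀ f ∈ R Γ, ∀ n : ℤ, (fun z => f ((n : ℂ) • z)) ∈ R ((n : ℂ) ^ 2 • Γ)
  frame : ∃ v w : C2, LinearIndependent ℂ ![v, w] ∧
    ∀ Γ ∈ C, ∀ f ∈ R Γ, ∀ g ∈ R Γ, wro v f g ∈ R ((2 : ℂ) • Γ) ∧ wro w f g ∈ R ((2 : ℂ) • Γ)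

/-- The transfer of functions. -/
private noncomputable def CfA_T (S' : PerData) (A : C2 ≃ₗ[ℂ] C2) (u : ℤ) :
    (C2 → ℂ) ≃ₗ[ℂ] (C2 → ℂ) where
  toFun f := fun z => S'.gz u (A z) * f (A z)
  map_add' f g := by
    funext z
    simp only [Pi.add_apply]
    ring
  map_smul' c f := by
    funext z
    simp only [Pi.smul_apply, smul_eq_mul, RingHom.id_apply]
    ring
  invFun F := fun w => (S'.gz u w)⁻¹ * F (A.symm w)
  left_inv f := by
    funext w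
    simp only [LinearEquiv.apply_symm_apply]
    rw [inv_mul_cancel_left₀ (S'.gz_ne u w)]
  right_inv F := by
    funext z
    simp only [LinearEquiv.symm_apply_apply]
    rw [mul_inv_cancel_left₀ (S'.gz_ne u (A z))]

private theorem CfA_T_apply (S' : PerData) (A : C2 ≃ₗ[ℂ] C2) (u : ℤ) (f : C2 → ℂ) (z : C2) :
    CfA_T S' A u f z = S'.gz u (A z) * f (A z) := rfl

private theorem CfA_cls (c : ℂ) (m : ℕ) (P : Matrix (Fin 2) (Fin 2) ℂ) (hc : c = 2 * (m : ℂ)) :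
    c • P = (2 : ℂ) • ((m : ℂ) • P) := by
  rw [smul_smul, hc]

private theorem CfA_mem {S S' : PerData} {H : Matrix (Fin 2) (Fin 2) ℂ} {n : ℕ}
    {A : C2 ≃ₗ[ℂ] C2} (h : S.NF H S' n A) (m : ℕ) (f : C2 → ℂ) :
    CfA_T S' A (2 * m) f ∈ S.TH ((2 : ℂ) • ((m : ℂ) • pull A S'.H0)) (fun _ => 1) ↔
      f ∈ S'.Th (2 * m) 0 0 := by
  rw [S'.mem_TH_one (m : ℤ) f]
  have h1 := h.mem (G := ((2 * (m : ℤ) : ℤ) : ℂ) • S'.H0) (χ := fun _ => 1)
    (f := fun z => S'.gz (2 * m) z * f z)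
  rw [pull_smul, CfA_cls _ m _ (by push_cast; ring)] at h1
  exact h1

private theorem CfA_map {S S' : PerData} {H : Matrix (Fin 2) (Fin 2) ℂ} {n : ℕ}
    {A : C2 ≃ₗ[ℂ] C2} (h : S.NF H S' n A) (m : ℕ) :
    (S'.Th (2 * m) 0 0).map (CfA_T S' A (2 * m) : (C2 → ℂ) →ₗ[ℂ] (C2 → ℂ)) =
      S.TH ((2 : ℂ) • ((m : ℂ) • pull A S'.H0)) (fun _ => 1) := by
  ext F
  rw [Submodule.mem_map]
  constructor
  · rintro ⟨f, hf, rfl⟩
    exact (CfA_mem h m f).2 hf
  · intro hF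
    refine ⟨(CfA_T S' A (2 * m)).symm F, (CfA_mem h m _).1 ?_, ?_⟩
    · rw [LinearEquiv.apply_symm_apply]
      exact hF
    · show CfA_T S' A (2 * m) ((CfA_T S' A (2 * m)).symm F) = F
      rw [LinearEquiv.apply_symm_apply]

private theorem CfA_wro (A : C2 ≃ₗ[ℂ] C2) (v : C2) {φ f g : C2 → ℂ} (hφ : Differentiable ℂ φ)
    (hf : Differentiable ℂ f) (hg : Differentiable ℂ g) (z : C2) :
    wro v (fun z => φ (A z) * f (A z)) (fun z => φ (A z) * g (A z)) z =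
      φ (A z) * φ (A z) * wro (A v) f g (A z) := by
  have hA : ∀ (F : C2 → ℂ), Differentiable ℂ F →
      HasFDerivAt (fun z => F (A z)) ((fderiv ℂ F (A z)).comp
        (LinearMap.toContinuousLinearMap (A : C2 →ₗ[ℂ] C2))) z := by
    intro F hF
    have h1 : HasFDerivAt (fun z => A z) (LinearMap.toContinuousLinearMap (A : C2 →ₗ[ℂ] C2)) z :=
      (LinearMap.toContinuousLinearMap (A : C2 →ₗ[ℂ] C2)).hasFDerivAt
    exact (hF (A z)).hasFDerivAt.comp z h1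
  have h1 : fderiv ℂ (fun z => φ (A z) * f (A z)) z = _ := ((hA φ hφ).mul (hA f hf)).fderiv
  have h2 : fderiv ℂ (fun z => φ (A z) * g (A z)) z = _ := ((hA φ hφ).mul (hA g hg)).fderiv
  unfold wro
  have e1 : fderiv ℂ (fun z => φ (A z) * f (A z)) z v =
      φ (A z) * fderiv ℂ f (A z) (A v) + f (A z) * fderiv ℂ φ (A z) (A v) := by
    have h3 := congrArg (fun L : C2 →L[ℂ] ℂ => L v) h1
    simpa using h3
  have e2 : fderiv ℂ (fun z => φ (A z) * g (A z)) z v =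
      φ (A z) * fderiv ℂ g (A z) (A v) + g (A z) * fderiv ℂ φ (A z) (A v) := by
    have h3 := congrArg (fun L : C2 →L[ℂ] ℂ => L v) h2
    simpa using h3
  rw [e1, e2]
  ring

namespace CForm

variable {S : PerData} {C : AddSubgroup (Matrix (Fin 2) (Fin 2) ℂ)} {k : Subfield ℂ} (N : CForm S C k)

private theorem CfA_TH {Γ : Matrix (Fin 2) (Fin 2) ℂ} (hΓ : Γ ∈ C) {f : C2 → ℂ}
    (hf : f ∈ N.R Γ) : f ∈ S.TH ((2 : ℂ) • Γ) (fun _ => 1) := by
  obtain ⟨M, b, hb⟩ := N.form Γ hΓ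
  rw [hb] at hf
  have h1 : Submodule.span k (Set.range fun i => (b i : C2 → ℂ)) ≤
      (S.TH ((2 : ℂ) • Γ) (fun _ => 1)).restrictScalars k := by
    rw [Submodule.span_le]
    rintro _ ⟨i, rfl⟩
    exact (b i).2
  exact h1 hf

/-- The induced `k`-structure on the polarised surface `S'` of a normal form.
PROOF: `K.R m` is the preimage of `N.R (m P)`, `P = pull A S'.H0` (in `NS` by `pull_mem`, `H0_mem`), under the linear injection
`T m f' z = gz (2 m) (A z) f' (A z)`.  `form`: `T m` maps `S'.Th (2 m) 0 0` isomorphically to `S.TH (2 (m P)) 1` (`mem_TH_one`, `NF.mem`; `gz` does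
not vanish).  `mul`: `gz_add`.  `zero`: `gz_zero`.  `nmul`: `gz_smul`; `(n : ℂ) ^ 2 • (m P) = ((n.natAbs ^ 2 * m : ℕ) : ℂ) • P`.  `frame`: the vectors
`A v, A w`; `wro v (T m f) (T m g) = T (2 m) (wro (A v) f g)` (the derivatives of the common factor cancel; chain rule, `equiv_diff`). -/
theorem exists_kform {H : Matrix (Fin 2) (Fin 2) ℂ} {S' : PerData} {n : ℕ} {A : C2 ≃ₗ[ℂ] C2} (h : S.NF H S' n A)
    (hPC : pull A S'.H0 ∈ C) :
    ∃ K : KForm S' k, ∀ (m : ℕ) (f : C2 → ℂ), f ∈ K.R m ↔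
      (fun z => S'.gz (2 * m) (A z) * f (A z)) ∈ N.R ((m : ℂ) • pull A S'.H0) := by
  obtain ⟨P, hP⟩ : ∃ P, P = pull A S'.H0 := ⟨_, rfl⟩
  have hPN : P ∈ C := by
    rw [hP]
    exact hPC
  have hmP : ∀ m : ℕ, (m : ℂ) • P ∈ C := by
    intro m
    rw [Nat.cast_smul_eq_nsmul ℂ m P]
    exact C.nsmul_mem hPN m
  obtain ⟨v, w, hvw, hfr⟩ := N.frame
  have hTh : ∀ (m : ℕ) (f : C2 → ℂ), CfA_T S' A (2 * m) f ∈ N.R ((m : ℂ) • P) →
      f ∈ S'.Th (2 * m) 0 0 := by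
    intro m f hf
    have h1 := N.CfA_TH (hmP m) hf
    rw [hP] at h1
    exact (CfA_mem h m f).1 h1
  have hwro : ∀ (v : C2) (m : ℕ) (f g : C2 → ℂ), CfA_T S' A (2 * m) f ∈ N.R ((m : ℂ) • P) →
      CfA_T S' A (2 * m) g ∈ N.R ((m : ℂ) • P) →
      CfA_T S' A (2 * ((2 * m : ℕ) : ℤ)) (wro (A v) f g) =
        wro v (CfA_T S' A (2 * m) f) (CfA_T S' A (2 * m) g) := by
    intro v m f g hf hg
    funext z
    rw [CfA_T_apply]
    have h1 := CfA_wro A v (S'.gz_diff (2 * m)) (hTh m f hf).1 (hTh m g hg).1 z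
    refine Eq.trans ?_ h1.symm
    rw [← S'.gz_add]
    congr 2
    push_cast
    ring
  have hdbl : ∀ m : ℕ, (((2 * m : ℕ) : ℂ)) • P = (2 : ℂ) • ((m : ℂ) • P) := by
    intro m
    exact CfA_cls _ m P (by push_cast; ring)
  refine ⟨{ R := fun m => (N.R ((m : ℂ) • P)).comap
              ((CfA_T S' A (2 * m) : (C2 → ℂ) →ₗ[ℂ] (C2 → ℂ)).restrictScalars k)
            form := ?_
            mul := ?_
            zero := ?_
            nmul := ?_
            frame := ?_ }, ?_⟩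
  · intro m
    obtain ⟨M, b, hb⟩ := N.form ((m : ℂ) • P) (hmP m)
    have hmap : (S'.Th (2 * m) 0 0).map (CfA_T S' A (2 * m) : (C2 → ℂ) →ₗ[ℂ] (C2 → ℂ)) =
        S.TH ((2 : ℂ) • ((m : ℂ) • P)) (fun _ => 1) := by
      rw [hP]
      exact CfA_map h m
    refine ⟨M, b.map ((CfA_T S' A (2 * m)).ofSubmodules _ _ hmap).symm, ?_⟩
    have hbi : ∀ i, ((CfA_T S' A (2 * m) : (C2 → ℂ) →ₗ[ℂ] (C2 → ℂ)).restrictScalars k)
        ((b.map ((CfA_T S' A (2 * m)).ofSubmodules _ _ hmap).symm i :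
          S'.Th (2 * m) 0 0) : C2 → ℂ) = (b i : C2 → ℂ) := by
      intro i
      rw [Basis.map_apply]
      have h1 := LinearEquiv.ofSubmodules_apply (CfA_T S' A (2 * m)) hmap
        (((CfA_T S' A (2 * m)).ofSubmodules _ _ hmap).symm (b i))
      rw [LinearEquiv.apply_symm_apply] at h1
      exact h1.symm
    rw [hb]
    have hinj : Function.Injective
        ((CfA_T S' A (2 * m) : (C2 → ℂ) →ₗ[ℂ] (C2 → ℂ)).restrictScalars k) :=
      (CfA_T S' A (2 * m)).injective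
    rw [← Submodule.comap_map_eq_of_injective hinj (Submodule.span k (Set.range fun i =>
      ((b.map ((CfA_T S' A (2 * m)).ofSubmodules _ _ hmap).symm i : S'.Th (2 * m) 0 0) :
        C2 → ℂ))), Submodule.map_span, ← Set.range_comp]
    congr 3
    funext i
    exact (hbi i).symm
  · intro m m' f g hf hg
    have h1 := N.mul _ (hmP m) _ (hmP m') _ hf _ hg
    rw [← add_smul] at h1
    have e1 : (m : ℂ) + (m' : ℂ) = ((m + m' : ℕ) : ℂ) := by push_cast; ring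
    rw [e1] at h1
    show CfA_T S' A (2 * ((m + m' : ℕ) : ℤ)) (f * g) ∈ N.R (((m + m' : ℕ) : ℂ) • P)
    have e2 : CfA_T S' A (2 * ((m + m' : ℕ) : ℤ)) (f * g) =
        CfA_T S' A (2 * m) f * CfA_T S' A (2 * m') g := by
      funext z
      rw [Pi.mul_apply, CfA_T_apply, CfA_T_apply, CfA_T_apply, Pi.mul_apply]
      have e3 : (2 * ((m + m' : ℕ) : ℤ)) = 2 * m + 2 * m' := by push_cast; ring
      rw [e3, S'.gz_add]
      ring
    rw [e2]
    exact h1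
  · intro m f hf
    have h1 := N.zero _ (hmP m) _ hf
    have h2 : CfA_T S' A (2 * m) f 0 = f 0 := by
      rw [CfA_T_apply, map_zero, S'.gz_zero, one_mul]
    rw [← h2]
    exact h1
  · intro m l f hf
    have h1 := N.nmul _ (hmP m) _ hf l
    show CfA_T S' A (2 * ((l.natAbs ^ 2 * m : ℕ) : ℤ)) (fun z => f ((l : ℂ) • z)) ∈
      N.R (((l.natAbs ^ 2 * m : ℕ) : ℂ) • P)
    have e0 : ((l.natAbs ^ 2 * m : ℕ) : ℤ) = l ^ 2 * m := by
      push_cast
      rw [sq_abs]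
    have e1 : (((l.natAbs ^ 2 * m : ℕ)) : ℂ) = (l : ℂ) ^ 2 * m := by
      have h2 : ((((l.natAbs ^ 2 * m : ℕ)) : ℤ) : ℂ) = ((l ^ 2 * m : ℤ) : ℂ) := by rw [e0]
      rw [Int.cast_natCast] at h2
      rw [h2]
      push_cast
      ring
    rw [e1, mul_smul]
    have e2 : CfA_T S' A (2 * ((l.natAbs ^ 2 * m : ℕ) : ℤ)) (fun z => f ((l : ℂ) • z)) =
        fun z => (CfA_T S' A (2 * m) f) ((l : ℂ) • z) := by
      funext z
      show S'.gz (2 * ((l.natAbs ^ 2 * m : ℕ) : ℤ)) (A z) * f ((l : ℂ) • A z) =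
        S'.gz (2 * m) (A ((l : ℂ) • z)) * f (A ((l : ℂ) • z))
      rw [map_smul, S'.gz_smul, e0]
      congr 2
      ring
    rw [e2]
    exact h1
  · refine ⟨A v, A w, ?_, fun m f g hf hg => ?_⟩
    · have h1 := hvw.map' (A : C2 →ₗ[ℂ] C2) A.ker
      have h2 : (A : C2 →ₗ[ℂ] C2) ∘ ![v, w] = ![A v, A w] := by
        funext i
        fin_cases i <;> rfl
      rwa [h2] at h1
    · obtain ⟨h1, h2⟩ := hfr _ (hmP m) _ hf _ hg
      constructor
      · show CfA_T S' A (2 * ((2 * m : ℕ) : ℤ)) (wro (A v) f g) ∈ N.R (((2 * m : ℕ) : ℂ) • P)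
        rw [hwro v m f g hf hg, hdbl m]
        exact h1
      · show CfA_T S' A (2 * ((2 * m : ℕ) : ℤ)) (wro (A w) f g) ∈ N.R (((2 * m : ℕ) : ℂ) • P)
        rw [hwro w m f g hf hg, hdbl m]
        exact h2
  · intro m f
    have e : N.R ((m : ℂ) • pull A S'.H0) = N.R ((m : ℂ) • P) := by rw [hP]
    show CfA_T S' A (2 * m) f ∈ N.R ((m : ℂ) • P) ↔
      CfA_T S' A (2 * m) f ∈ N.R ((m : ℂ) • pull A S'.H0)
    rw [e]

/-- Rational even functions of a positive definite class, not vanishing at a given point.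
PROOF: `exists_NF` for `Δ`: `S', n, A`, `Δ = pull A (n H0')`, and `K` from `exists_kform`.  `K.R n` contains an even `f` with `f (A z) ≠ 0`
(`exists_even_ne_zero`, `rat_par`, `exists_one`); `T n f ∈ N.R (n P) = N.R Δ`, even (`gz_even`), not zero at `z`. -/
theorem exists_even {Δ : Matrix (Fin 2) (Fin 2) ℂ} (hΔ : Δ ∈ C) (hp : PD Δ) (z : C2) :
    ∃ f ∈ N.R Δ, f ∈ Par 1 ∧ f z ≠ 0 := by
  obtain ⟨S', n, A, h⟩ := S.exists_NF (N.le hΔ) hp
  have hPC : pull A S'.H0 ∈ C := by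
    refine N.sat _ (h.pull_mem.2 S'.H0_mem) n h.n_pos ?_
    rw [← pull_smul, ← h.H_eq]
    exact hΔ
  obtain ⟨K, hK⟩ := N.exists_kform h hPC
  have hn : (1 : ℤ) ≤ n := by exact_mod_cast h.n_pos
  obtain ⟨g, hg, hg0⟩ := S'.exists_even_ne_zero hn (A z)
  obtain ⟨f, hf1, hf2, hf3⟩ := K.exists_one (K.rat_par n (Or.inl rfl))
    (W' := LinearMap.ker (LinearMap.proj (R := ℂ) (φ := fun _ : C2 => ℂ) (A z)))
    (fun hle => hg0 (LinearMap.mem_ker.1 (hle hg)))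
  have hf4 : f (A z) ≠ 0 := fun h0 => hf3 (LinearMap.mem_ker.2 h0)
  refine ⟨fun z => S'.gz (2 * n) (A z) * f (A z), ?_, fun y => ?_, ?_⟩
  · have h1 := (hK n f).1 hf2
    rw [← pull_smul, ← h.H_eq] at h1
    exact h1
  · show S'.gz (2 * n) (A (-y)) * f (A (-y)) = 1 * (S'.gz (2 * n) (A y) * f (A y))
    rw [map_neg, S'.gz_even, hf1.2 (A y)]
    ring
  · exact mul_ne_zero (S'.gz_ne _ _) hf4

end CForm

end Q2T
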