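import Pool.Agent.H.MP_89f84f_ag.q3.MiA
import Pool.Agent.H.MP_89f84f_ag.q4.IpA

set_option autoImplicit false

open Complex Topology Filter Asymptotics Metric Set

namespace Q2T

namespace PerData

variable (S : PerData)

/-- `s` is a nonzero theta function of the positive definite class `H`, of exact order `m` at `0`, negative with respect to the class `P`:
`(H · P) ^ 2 < P ^ 2 m ^ 2`. -/
structure Neg2 (P H : Matrix (Fin 2) (Fin 2) ℂ) (χ s : C2 → ℂ) (m : ℕ) : Prop where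
  ns : H ∈ S.NS
  pd : PD H
  sc : S.SC H χ
  mem : s ∈ S.TH H χ
  ne : s ≠ 0
  van : s ∈ Van m 0
  van' : s ∉ Van (m + 1) 0
  neg : S.ip H P ^ 2 < 2 * S.pf P * (m : ℝ) ^ 2

private theorem MiN_le_of_van {p : C2} {f : C2 → ℂ} {m n : ℕ} (h1 : f ∈ Van m p)
    (h2 : f ∉ Van (n + 1) p) : m ≤ n := by
  by_contra h
  exact h2 (van_mono (by omega) p h1)

private theorem MiN_herm {G : Matrix (Fin 2) (Fin 2) ℂ} (hG : G.IsHermitian) (r : ℝ) :
    ((r : ℂ) • G).IsHermitian := by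
  unfold Matrix.IsHermitian
  rw [Matrix.conjTranspose_smul, hG.eq]
  congr 1
  exact Complex.conj_ofReal r

/-- PROOF: as `exists_neg` (q3/MiA.lean) for `Γ = P`: normal form `P = pull A (n H0')`, Pell, `exists_pell_section`: `H = pull A (2 a H0')`, order `m ≥ 2 b`,
`b² = 2 d' a² + 1`.  `ip H P = 2 a n · 2 d'` (`NF.ip_pull`, `ip_smul`, `ip_comm`, `ip_self`, `pf_H0`), `pf P = n² d'`; `16 a² n² d'² < 2 n² d' · 4 b²`. -/
theorem exists_neg2 {P : Matrix (Fin 2) (Fin 2) ℂ} (hP : P ∈ S.NS) (hp : PD P) (hsq : ¬ ∃ r : ℕ, (r : ℝ) ^ 2 = 2 * S.pf P) :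
    ∃ (H : Matrix (Fin 2) (Fin 2) ℂ) (χ s : C2 → ℂ) (m : ℕ), S.Neg2 P H χ s m := by
  obtain ⟨S', n, A, hN⟩ := S.exists_NF hP hp
  have hns : ¬ IsSquare (2 * S'.d) := by
    rintro ⟨r, hr⟩
    apply hsq
    refine ⟨n * r, ?_⟩
    rw [hN.pf]
    have h1 : (2 : ℝ) * (S'.d : ℝ) = (r : ℝ) * r := by exact_mod_cast hr
    push_cast
    linear_combination (-(n : ℝ) ^ 2) * h1
  obtain ⟨a, b, ha, hab, -⟩ := exists_pell S'.d_pos hns
  obtain ⟨f, hf, -, hfv, hf0⟩ := S'.exists_pell_section ha hab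
  obtain ⟨χ, hχ, hmem⟩ := hN.of_classical hf
  obtain ⟨F, hF⟩ : ∃ F : C2 → ℂ, F = fun z => S'.gz (2 * a) (A z) * f (A z) := ⟨_, rfl⟩
  rw [← hF] at hmem
  have e : ((2 * a : ℤ) : ℂ) = ((2 * (a : ℝ) : ℝ) : ℂ) := by push_cast; rfl
  have hHa : (((2 * a : ℤ) : ℂ) • S'.H0).IsHermitian := by
    rw [e]
    exact MiN_herm S'.H0_herm _
  have hH : (pull A (((2 * a : ℤ) : ℂ) • S'.H0)).IsHermitian := pull_herm A hHa
  have hF0 : F ≠ 0 := by
    intro h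
    apply hf0
    funext w
    have h1 := congrFun h (A.symm w)
    rw [hF] at h1
    simp only [LinearEquiv.apply_symm_apply, Pi.zero_apply] at h1
    exact (mul_eq_zero.1 h1).resolve_left (S'.gz_ne _ _)
  have hFv : F ∈ Van (2 * b) 0 := by
    rw [hF]
    have h1 := (van_mul_unit (S'.gz_diff (2 * a)).continuous (S'.gz_ne (2 * a) 0)).2 hfv
    exact (van_comp_equiv A).2 h1
  obtain ⟨m, hm, hm'⟩ := exists_order (p := 0) hmem.1 hF0
  have hbm : 2 * b ≤ m := MiN_le_of_van hFv hm'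
  have hip : S.ip (pull A (((2 * a : ℤ) : ℂ) • S'.H0)) P = 4 * a * n * S'.d := by
    have hn : ((n : ℂ) • S'.H0).IsHermitian := by
      have h1 := MiN_herm S'.H0_herm (n : ℝ)
      rw [Complex.ofReal_natCast] at h1
      exact h1
    have h2 : S'.ip S'.H0 ((n : ℂ) • S'.H0) = n * (2 * S'.d) := by
      rw [S'.ip_comm, ← Complex.ofReal_natCast, S'.ip_smul _ S'.H0_herm S'.H0_herm, S'.ip_self,
        S'.pf_H0]
    have h3 : S.ip (pull A (((2 * a : ℤ) : ℂ) • S'.H0)) P =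
        S.ip (pull A (((2 * a : ℤ) : ℂ) • S'.H0)) (pull A ((n : ℂ) • S'.H0)) :=
      congrArg _ hN.H_eq
    rw [h3, hN.ip_pull hHa hn, e, S'.ip_smul _ S'.H0_herm hn, h2]
    ring
  refine ⟨_, χ, F, m, (S.SC_of_ne hH hχ.1 hmem hF0).1, ?_, hχ, hmem, hF0, hm, hm', ?_⟩
  · refine pull_pd A fun z hz => ?_
    rw [hm_smul, e, Complex.re_ofReal_mul]
    have h1 : (0 : ℝ) < a := by exact_mod_cast ha
    exact mul_pos (by linarith) (S'.H0_pd z hz)
  · rw [hip, hN.pf]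
    have h1 : (2 * b) ^ 2 ≤ m ^ 2 := Nat.pow_le_pow_left hbm 2
    have h2 : 2 * ((2 * a) ^ 2 * S'.d) < m ^ 2 := by nlinarith
    have h3 : (2 : ℝ) * ((2 * a) ^ 2 * S'.d) < (m : ℝ) ^ 2 := by exact_mod_cast h2
    have h4 : (0 : ℝ) < n := by exact_mod_cast hN.n_pos
    have h5 : (0 : ℝ) < S'.d := by exact_mod_cast S'.d_pos
    have h6 : (0 : ℝ) < 2 * ((n : ℝ) ^ 2 * S'.d) := by positivity
    have h7 := mul_lt_mul_of_pos_left h3 h6
    nlinarith [h7]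

/-- One of minimal degree `H · P`; it has the dichotomy property.
PROOF: as `exists_neg_dch` (q3/MiA.lean), with `ip H P` (a positive integer: `ip_int`, `ip_pos`) in the place of `dg H`.  In the last case (`G` and `H - G` positive
definite) minimality gives `2 pf P m₁² ≤ (ip G P)²` and `2 pf P m₂² ≤ (ip (H - G) P)²`, so `√(2 pf P) (m₁ + m₂) ≤ ip G P + ip (H - G) P = ip H P`
(`ip_add`), contradiction to `neg`. -/
theorem exists_neg2_dch (hA : S.Aniso) {P : Matrix (Fin 2) (Fin 2) ℂ} (hP : P ∈ S.NS) (hp : PD P)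
    (hsq : ¬ ∃ r : ℕ, (r : ℝ) ^ 2 = 2 * S.pf P) :
    ∃ (H : Matrix (Fin 2) (Fin 2) ℂ) (χ s : C2 → ℂ) (m : ℕ), S.Neg2 P H χ s m ∧ S.Dch s := by
  classical
  let Q : ℕ → Prop := fun u => ∃ (H : Matrix (Fin 2) (Fin 2) ℂ) (χ s : C2 → ℂ) (m : ℕ), S.Neg2 P H χ s m ∧ S.ip H P = u
  have hnat : ∀ {H : Matrix (Fin 2) (Fin 2) ℂ}, H ∈ S.NS → PD H → ∃ u : ℕ, S.ip H P = u := by
    intro H hH hH'
    obtain ⟨k, hk⟩ := S.ip_int hH hP
    have h1 := S.ip_pos hH.1 hP.1 hH' hp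
    rw [hk] at h1
    have h2 : 0 < k := by exact_mod_cast h1
    obtain ⟨u, rfl⟩ := Int.eq_ofNat_of_zero_le h2.le
    exact ⟨u, by rw [hk]; push_cast; rfl⟩
  have hex : ∃ u, Q u := by
    obtain ⟨H, χ, s, m, h⟩ := S.exists_neg2 hP hp hsq
    obtain ⟨u, hu⟩ := hnat h.ns h.pd
    exact ⟨u, H, χ, s, m, h, hu⟩
  obtain ⟨H, χ, s, m, hs, hdg⟩ := Nat.find_spec hex
  have hmin : ∀ (G : Matrix (Fin 2) (Fin 2) ℂ) (ψ g : C2 → ℂ) (k : ℕ), G ∈ S.NS → PD G → S.ip G P < S.ip H P →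
      S.SC G ψ → g ∈ S.TH G ψ → g ≠ 0 → g ∈ Van k 0 → g ∉ Van (k + 1) 0 →
      2 * S.pf P * (k : ℝ) ^ 2 ≤ S.ip G P ^ 2 := by
    intro G ψ g k hG hGp hlt hψ hg hg0 hk hk'
    by_contra hcon
    push Not at hcon
    obtain ⟨u, hu⟩ := hnat hG hGp
    refine Nat.find_min hex (m := u) ?_ ⟨G, ψ, g, k, ⟨hG, hGp, hψ, hg, hg0, hk, hk', hcon⟩, hu⟩
    rw [hu, hdg] at hlt
    exact_mod_cast hlt
  refine ⟨H, χ, s, m, hs, ?_⟩
  intro H' χ' t hH' hχ' ht ht0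
  have hχ0 : ∀ {K : Matrix (Fin 2) (Fin 2) ℂ} {ψ : C2 → ℂ}, S.SC K ψ → ∀ x ∈ S.Lat, ψ x ≠ 0 := by
    intro K ψ h x hx h0
    have h1 := h.1 x hx
    rw [h0, norm_zero] at h1
    exact zero_ne_one h1
  obtain ⟨G, ψ, g, s', t', hG, hψ, hg, hs', ht', hsg, htg, hcop⟩ :=
    S.gcd_TH (S.TH_qp (hχ0 hs.sc) hs.mem) (S.TH_qp (hχ0 hχ') ht) hs.ne ht0
  have hg0 : g ≠ 0 := by
    rintro rfl
    exact hs.ne (by rw [hsg, zero_mul])
  have hs'0 : s' ≠ 0 := by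
    rintro rfl
    exact hs.ne (by rw [hsg, mul_zero])
  have hs'T := S.TH_quot hg hg0 (hχ0 hψ) hs.mem hs' hsg
  have hψ' := S.SC_sub hs.sc hψ
  have hHG : H - G ∈ S.NS := S.NS.sub_mem hs.ns hG
  have hp1 := S.TH_psd hG.1 hψ.1 hg hg0
  have hp2 := S.TH_psd hHG.1 hψ'.1 hs'T hs'0
  rcases hA.cases hG hp1 with h0 | hGp
  · left
    rw [h0] at hg
    obtain ⟨c, rfl⟩ := S.TH_zero_const hψ.1 hg
    have hc : c ≠ 0 := by
      rintro rfl
      exact hg0 rfl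
    intro p
    filter_upwards [hcop p] with z hz
    rintro ⟨h1, h2⟩
    apply hz
    rw [hsg] at h1
    rw [htg] at h2
    exact ⟨(mul_eq_zero.1 h1).resolve_left hc, (mul_eq_zero.1 h2).resolve_left hc⟩
  · rcases hA.cases hHG hp2 with h0 | hHGp
    · right
      rw [h0] at hs'T
      obtain ⟨c, rfl⟩ := S.TH_zero_const hψ'.1 hs'T
      have hc : c ≠ 0 := by
        rintro rfl
        exact hs'0 rfl
      refine ⟨c⁻¹ • t', ht'.const_smul _, ?_⟩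
      rw [htg, hsg]
      funext z
      simp only [Pi.mul_apply, Pi.smul_apply, smul_eq_mul]
      field_simp
    · exfalso
      obtain ⟨m₁, hm₁, hm₁'⟩ := exists_order (p := 0) hg.1 hg0
      obtain ⟨m₂, hm₂, hm₂'⟩ := exists_order (p := 0) hs' hs'0
      obtain ⟨h1, h2⟩ := order_mul hg.1 hs' hm₁ hm₁' hm₂ hm₂'
      rw [← hsg] at h1 h2
      have hmm : m = m₁ + m₂ := le_antisymm (MiN_le_of_van hs.van h2) (MiN_le_of_van h1 hs.van')
      have hsum : G + (H - G) = H := add_sub_cancel G H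
      have hd1 := S.ip_pos hG.1 hP.1 hGp hp
      have hd2 := S.ip_pos hHG.1 hP.1 hHGp hp
      have hd : S.ip G P + S.ip (H - G) P = S.ip H P := by
        rw [← S.ip_add hG.1 hHG.1 hP.1, hsum]
      have e1 := hmin G ψ g m₁ hG hGp (by linarith) hψ hg hg0 hm₁ hm₁'
      have e2 := hmin (H - G) _ s' m₂ hHG hHGp (by linarith) hψ' hs'T hs'0 hm₂ hm₂'
      have hpf := S.pf_pos hP.1 hp
      have e4 := hs.neg
      rw [hmm, ← hd] at e4
      push_cast at e4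
      generalize S.ip G P = x at *
      generalize S.ip (H - G) P = y at *
      generalize S.pf P = q at *
      have g1 : (0 : ℝ) ≤ (m₁ : ℝ) := Nat.cast_nonneg m₁
      have g2 : (0 : ℝ) ≤ (m₂ : ℝ) := Nat.cast_nonneg m₂
      have e3 : (2 * q * (m₁ : ℝ) ^ 2) * (2 * q * (m₂ : ℝ) ^ 2) ≤ x ^ 2 * y ^ 2 :=
        mul_le_mul e1 e2 (by positivity) (sq_nonneg x)
      have e5 : 2 * q * m₁ * m₂ ≤ x * y := by
        refine (pow_le_pow_iff_left₀ (by positivity) (by positivity) two_ne_zero).1 ?_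
        linarith [e3]
      nlinarith [e1, e2, e5]

end PerData

end Q2T
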