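import Pool.Agent.H.MP_89f84f_ag.q3.MiB
import Pool.Agent.H.MP_89f84f_ag.q4.MiN

set_option autoImplicit false

open Complex Topology Filter Asymptotics Metric Set

namespace Q2T

namespace PerData

variable (S : PerData)

/-- `curve_of_dich` (q3/MiB.lean) with the level and the order.
PROOF: the same proof gives this. -/
theorem curve_of_dich' {u : ℤ} {α β : Fin 2 → ℝ} {s : C2 → ℂ} {m : ℕ} (hu : 1 ≤ u) (hs : s ∈ S.Th u α β)
    (hs0 : s ≠ 0) (hm : s ∈ Van m 0) (hm' : s ∉ Van (m + 1) 0) (h : 2 * (S.d : ℤ) * u ^ 2 < (m : ℤ) ^ 2)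
    (hD : S.Dich s) :
    (∃ a b : ℕ, u = 2 * a ∧ m = 2 * b ∧ S.Curve a b s) ∨ ∃ a b : ℕ, u = a ∧ m = b ∧ Odd a ∧ S.Curve2 a b s := by
  obtain ⟨hpar, hα, hβ⟩ := S.symm_of_dich hu hs hs0 hm hm' h hD
  rcases Int.even_or_odd u with he | ho
  · left
    obtain ⟨T, hT4, hT0, -, hTe, hTo⟩ := S.adjunction hu hs hs0 hm hm' h hD hpar hα hβ
    by_cases hc : (∀ i, ∃ k : ℤ, α i = k) ∧ ∀ i, ∃ k : ℤ, β i = k
    · have hT := hT4 he hc
      rcases Nat.even_or_odd m with hme | hmo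
      · have h1 := hTe hme
        obtain ⟨u', hu'⟩ := he.two_dvd
        obtain ⟨m', hm2⟩ := hme.two_dvd
        obtain ⟨w, rfl⟩ : ∃ w : ℕ, u' = w := ⟨u'.toNat, (Int.toNat_of_nonneg (by omega)).symm⟩
        have hmz : (m : ℤ) = 2 * m' := by exact_mod_cast hm2
        rw [hT, hmz, hu'] at h1
        rw [hmz, hu'] at h
        have h2 : (m' : ℤ) ^ 2 = 2 * S.d * (w : ℤ) ^ 2 + 1 := by
          have h3 : 4 * (2 * (S.d : ℤ) * (w : ℤ) ^ 2) < 4 * (m' : ℤ) ^ 2 := by nlinarith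
          have h4 : 4 * (m' : ℤ) ^ 2 ≤ 4 * (2 * (S.d : ℤ) * (w : ℤ) ^ 2 + 1) := by nlinarith
          omega
        have h3 : m' ^ 2 = 2 * S.d * w ^ 2 + 1 := by exact_mod_cast h2
        refine ⟨w, m', hu', hm2, by omega, h3, ?_, hs0, ?_, ?_, ?_, hD⟩
        · rw [hu'] at hs
          rwa [← S.th_congr (2 * (w : ℤ)) (α := α) (β := β) (α' := 0) (β' := 0)] at hs
          · intro i
            obtain ⟨k, hk⟩ := hc.1 i
            exact ⟨-k, by rw [hk, Pi.zero_apply]; push_cast; ring⟩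
          · intro i
            obtain ⟨k, hk⟩ := hc.2 i
            exact ⟨-k, by rw [hk, Pi.zero_apply]; push_cast; ring⟩
        · rwa [hme.neg_one_pow] at hpar
        · rwa [hm2] at hm
        · rwa [hm2] at hm'
      · have h1 := hTo hmo
        rw [hT] at h1
        omega
    · have hT := hT0 he hc
      rcases Nat.even_or_odd m with hme | hmo
      · have h1 := hTe hme
        rw [hT] at h1
        omega
      · have h1 := hTo hmo
        rw [hT] at h1
        omega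
  · right
    obtain ⟨hmo, hpe, ⟨k1, hk1⟩, ⟨l1, hl1⟩, hk0, hl0⟩ :=
      S.adjunction_odd hu ho hs hs0 hm hm' h hD hpar hα hβ
    obtain ⟨w, rfl⟩ : ∃ w : ℕ, u = w := ⟨u.toNat, (Int.toNat_of_nonneg (by omega)).symm⟩
    have hhalf : ∀ γ : Fin 2 → ℝ, (∃ k : ℤ, γ 1 = k) → (¬ ∃ k : ℤ, γ 0 = k) →
        (∃ k : ℤ, 2 * γ 0 = k) → ∀ i, ∃ k : ℤ, γ i = hc i + k := by
      rintro γ ⟨k, hk⟩ h0 ⟨l, hl⟩ i
      fin_cases i
      · rcases Int.even_or_odd' l with ⟨j, hj | hj⟩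
        · exfalso
          apply h0
          refine ⟨j, ?_⟩
          rw [hj] at hl
          push_cast at hl
          linarith
        · refine ⟨j, ?_⟩
          rw [hj] at hl
          push_cast at hl
          show γ 0 = 1 / 2 + (j : ℝ)
          linarith
      · refine ⟨k, ?_⟩
        show γ 1 = 0 + (k : ℝ)
        rw [hk, zero_add]
    refine ⟨w, m, rfl, rfl, by exact_mod_cast ho, by omega, by exact_mod_cast hpe, ?_, hs0, ?_, hm, hm', hD⟩
    · rwa [S.th_congr (w : ℤ) (α := hc) (β := hc) (α' := α) (β' := β)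
        (hhalf α ⟨k1, hk1⟩ hk0 (hα 0)) (hhalf β ⟨l1, hl1⟩ hl0 (hβ 0))] at hs
    · rwa [hmo.neg_one_pow] at hpar

/-- The classification of the minimal function in the normal form of its class.
PROOF: as `exists_curve_NS` (q3/MiB.lean; the part after `exists_NF`), with `curve_of_dich'`; `2 pf H < m²` follows from `neg` and `hodge_ip`
(`4 pf H pf P ≤ (ip H P)² < 2 pf P m²`, `pf_pos`). -/
theorem curve_of_neg2 {P H : Matrix (Fin 2) (Fin 2) ℂ} {χ s : C2 → ℂ} {m : ℕ} (hP : P ∈ S.NS) (hp : PD P)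
    (N : S.Neg2 P H χ s m) (hD : S.Dch s) {S' : PerData} {n : ℕ} {A : C2 ≃ₗ[ℂ] C2} (hNF : S.NF H S' n A) :
    (∃ (a b : ℕ) (s' : C2 → ℂ), n = 2 * a ∧ m = 2 * b ∧ S'.Curve a b s') ∨
      ∃ (a b : ℕ) (s' : C2 → ℂ), n = a ∧ m = b ∧ Odd a ∧ S'.Curve2 a b s' := by
  have e : H = pull A (((n : ℤ) : ℂ) • S'.H0) := by
    rw [hNF.H_eq, Int.cast_natCast]
  obtain ⟨α, β, s', hs', hss'⟩ := hNF.to_classical (v := (n : ℤ)) (χ := χ) (by rw [← e]; exact N.sc)
    (f := s) (by rw [← e]; exact N.mem)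
  have hAd := (equiv_diff A).1
  have hs0' : s' ≠ 0 := by
    intro h0
    apply N.ne
    funext z
    rw [hss' z, h0, Pi.zero_apply, mul_zero, Pi.zero_apply]
  have hprod : s = (fun z => S'.gz (n : ℤ) (A z)) * fun z => s' (A z) := funext hss'
  have hvan : ∀ k : ℕ, s ∈ Van k 0 ↔ s' ∈ Van k 0 := by
    intro k
    have hcont : Continuous fun z => S'.gz (n : ℤ) (A z) :=
      ((S'.gz_diff (n : ℤ)).comp hAd).continuous
    rw [hprod, van_mul_unit hcont (S'.gz_ne _ _), van_comp_equiv A]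
  have key := S'.curve_of_dich' (u := (n : ℤ)) (m := m) (by exact_mod_cast hNF.n_pos) hs' hs0'
    ((hvan m).1 N.van) (fun h => N.van' ((hvan (m + 1)).2 h)) ?_ ?_
  · rcases key with ⟨a, b, h1, h2, h3⟩ | ⟨a, b, h1, h2, h3, h4⟩
    · exact Or.inl ⟨a, b, s', by exact_mod_cast h1, h2, h3⟩
    · exact Or.inr ⟨a, b, s', by exact_mod_cast h1, h2, h3, h4⟩
  · have h0 : 2 * S.pf H < (m : ℝ) ^ 2 := by
      have h1 := N.neg
      have h2 := S.hodge_ip N.ns.1 hP.1 hp
      have h3 := S.pf_pos hP.1 hp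
      have h4 : S.pf P * (2 * S.pf H) < S.pf P * (m : ℝ) ^ 2 := by nlinarith
      exact lt_of_mul_lt_mul_left h4 h3.le
    rw [hNF.pf] at h0
    have h2 : ((2 * (S'.d : ℤ) * (n : ℤ) ^ 2 : ℤ) : ℝ) < (((m : ℤ) ^ 2 : ℤ) : ℝ) := by
      push_cast
      linarith
    exact_mod_cast h2
  · intro v α' β' t' ht' ht0'
    obtain ⟨χ', hsc, hmem⟩ := hNF.of_classical (v := v) ht'
    have hns : pull A ((v : ℂ) • S'.H0) ∈ S.NS := by
      refine hNF.pull_mem.2 ?_
      rw [Int.cast_smul_eq_zsmul]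
      exact S'.NS.zsmul_mem S'.H0_mem v
    have hT0 : (fun z => S'.gz v (A z) * t' (A z)) ≠ 0 := by
      intro h0
      apply ht0'
      funext w
      have h1 := congrFun h0 (A.symm w)
      simp only [LinearEquiv.apply_symm_apply, Pi.zero_apply] at h1
      exact (mul_eq_zero.1 h1).resolve_left (S'.gz_ne v w)
    rcases hD _ χ' _ hns hsc hmem hT0 with h | h
    · right
      refine (copr_comp_equiv A).1 fun p => ?_
      filter_upwards [h p] with z hz hz'
      refine hz ⟨?_, ?_⟩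
      · rw [hss' z, hz'.1, mul_zero]
      · rw [hz'.2, mul_zero]
    · left
      refine (mult_comp_equiv A).1 ?_
      obtain ⟨h', hh, he⟩ := h
      refine ⟨fun z => S'.gz (-v) (A z) * S'.gz (n : ℤ) (A z) * h' z,
        (((S'.gz_diff (-v)).comp hAd).mul ((S'.gz_diff (n : ℤ)).comp hAd)).mul hh, ?_⟩
      funext z
      have h1 := congrFun he z
      simp only [Pi.mul_apply] at h1 ⊢
      rw [hss' z] at h1
      have h2 := S'.gz_neg v (A z)
      linear_combination S'.gz (-v) (A z) * h1 - t' (A z) * h2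

end PerData

end Q2T
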