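import Pool.Agent.H.MP_89f84f_ag.q3.NsT
import Pool.Agent.H.MP_89f84f_ag.q3.NfB
import Pool.Agent.H.MP_89f84f_ag.q2.ThF

set_option autoImplicit false

open Complex Topology Filter Asymptotics Metric Set Module

namespace Q2T

namespace PerData

variable (S : PerData)

/-- The transfer of functions. -/
private noncomputable def DmA_T (S' : PerData) (A : C2 ≃ₗ[ℂ] C2) (u : ℤ) :
    (C2 → ℂ) ≃ₗ[ℂ] (C2 → ℂ) where
  toFun f := fun z => S'.gz u (A z) * f (A z)
  map_add' f g := by
    funext z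
    simp only [Pi.add_apply]
    ring
  map_smul' c f := by
    funext z
    simp only [Pi.smul_apply, smul_eq_mul, RingHom.id_apply]
    ring
  invFun F := fun w => (S'.gz u w)⁻¹ * F (A.symm w)
  left_inv f := by
    funext w
    simp only [LinearEquiv.apply_symm_apply]
    rw [inv_mul_cancel_left₀ (S'.gz_ne u w)]
  right_inv F := by
    funext z
    simp only [LinearEquiv.symm_apply_apply]
    rw [mul_inv_cancel_left₀ (S'.gz_ne u (A z))]

/-- The dimension of the space of theta functions of a positive definite class. -/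
theorem finrank_TH {H : Matrix (Fin 2) (Fin 2) ℂ} (hH : H ∈ S.NS) (hp : PD H) {χ : C2 → ℂ} (hχ : S.SC H χ) :
    FiniteDimensional ℂ (S.TH H χ) ∧ (finrank ℂ (S.TH H χ) : ℝ) = S.pf H := by
  obtain ⟨S', n, A, h⟩ := S.exists_NF hH hp
  have e0 : H = pull A (((n : ℤ) : ℂ) • S'.H0) := by
    rw [Int.cast_natCast]
    exact h.H_eq
  have e1 : χ = fun x => (fun y => χ (A.symm y)) (A x) := by
    funext x
    simp only [LinearEquiv.symm_apply_apply]
  have h1 : S'.SC (((n : ℤ) : ℂ) • S'.H0) (fun y => χ (A.symm y)) := by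
    refine h.sc.1 ?_
    rw [← e1, ← e0]
    exact hχ
  obtain ⟨α, β, h2⟩ := S'.exists_char h1
  have hmem : ∀ f : C2 → ℂ, f ∈ S'.Th (n : ℤ) α β ↔ DmA_T S' A n f ∈ S.TH H χ := by
    intro f
    rw [S'.gz_mem h2 f]
    have h3 := h.mem (G := ((n : ℤ) : ℂ) • S'.H0) (χ := fun y => χ (A.symm y)) (f := fun z => S'.gz n z * f z)
    rw [← e1, ← e0] at h3
    exact h3.symm
  have hmap : (S'.Th (n : ℤ) α β).map (DmA_T S' A n : (C2 → ℂ) →ₗ[ℂ] (C2 → ℂ)) = S.TH H χ := by
    ext F
    rw [Submodule.mem_map]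
    constructor
    · rintro ⟨f, hf, rfl⟩
      exact (hmem f).1 hf
    · intro hF
      refine ⟨(DmA_T S' A n).symm F, (hmem _).2 ?_, ?_⟩
      · rw [LinearEquiv.apply_symm_apply]
        exact hF
      · show DmA_T S' A n ((DmA_T S' A n).symm F) = F
        rw [LinearEquiv.apply_symm_apply]
  let e := (DmA_T S' A n).ofSubmodules _ _ hmap
  have hfin := S'.finite_th (n : ℤ) α β
  refine ⟨Module.Finite.equiv e, ?_⟩
  rw [← e.finrank_eq, h.pf]
  have hn : (1 : ℤ) ≤ n := by exact_mod_cast h.n_pos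
  have h4 := S'.finrank_th hn α β
  have h5 : ((finrank ℂ (S'.Th (n : ℤ) α β) : ℤ) : ℝ) = (((n : ℤ) ^ 2 * S'.d : ℤ) : ℝ) := by rw [h4]
  push_cast at h5
  exact_mod_cast h5

end PerData

end Q2T
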