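import Pool.Agent.H.MP_89f84f_ag.q3.CuB

set_option autoImplicit false

open Complex Topology Filter Asymptotics Metric Set Module

namespace Q2T

/-! ### Signs and the contribution of one coordinate -/

/-- The sign `(-1) ^ m`. -/
private def SeN_sg (m : ℤ) : ℤ := if Even m then 1 else -1

private theorem SeN_sg_add (m n : ℤ) : SeN_sg (m + n) = SeN_sg m * SeN_sg n := by
  unfold SeN_sg
  by_cases hm : Even m <;> by_cases hn : Even n <;> simp [hm, hn, Int.even_add]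

private theorem SeN_sg_even {m : ℤ} (h : Even m) : SeN_sg m = 1 := if_pos h

private theorem SeN_sg_odd {m : ℤ} (h : ¬ Even m) : SeN_sg m = -1 := if_neg h

private theorem SeN_cexp_sg (m : ℤ) : cexp (Real.pi * I * m) = (SeN_sg m : ℂ) := by
  rcases Int.even_or_odd m with ⟨k, hk⟩ | ⟨k, hk⟩
  · rw [SeN_sg_even ⟨k, hk⟩]
    have h1 : (Real.pi : ℂ) * I * m = (k : ℂ) * (2 * Real.pi * I) := by
      rw [hk]; push_cast; ring
    rw [h1, Complex.exp_int_mul_two_pi_mul_I]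
    simp
  · rw [SeN_sg_odd (Int.not_even_iff_odd.2 ⟨k, hk⟩)]
    have h1 : (Real.pi : ℂ) * I * m = (k : ℂ) * (2 * Real.pi * I) + Real.pi * I := by
      rw [hk]; push_cast; ring
    rw [h1, Complex.exp_add, Complex.exp_int_mul_two_pi_mul_I, Complex.exp_pi_mul_I]
    simp

/-- One term. -/
private def SeN_g1 (M : ℕ) (a b : ℤ) (i : ℕ) : ℤ :=
  if (M : ℤ) ∣ 2 * i + a then SeN_sg (b * ((2 * i + a) / M)) else 0

/-- The contribution of one coordinate. -/
private def SeN_F1 (M : ℕ) (a b : ℤ) : ℤ := ∑ i : Fin M, SeN_g1 M a b i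

private theorem SeN_F1_two {H : ℕ} (hH : 0 < H) (a' b : ℤ) :
    SeN_F1 (H + H) (2 * a') b = if Even b then 2 else 0 := by
  have hH' : (0 : ℤ) < H := by exact_mod_cast hH
  unfold SeN_F1
  rw [← Finset.sum_range (fun i => SeN_g1 (H + H) (2 * a') b i), Finset.sum_range_add,
    ← Finset.sum_add_distrib]
  have h1 : ∀ i ∈ Finset.range H, SeN_g1 (H + H) (2 * a') b i + SeN_g1 (H + H) (2 * a') b (H + i) =
      if (H : ℤ) ∣ i + a' then (if Even b then 2 else 0) else 0 := by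
    intro i _
    have c1 : ((H + H : ℕ) : ℤ) ∣ 2 * (i : ℤ) + 2 * a' ↔ (H : ℤ) ∣ i + a' := by
      have e : 2 * (i : ℤ) + 2 * a' = 2 * (i + a') := by ring
      have e' : ((H + H : ℕ) : ℤ) = 2 * H := by push_cast; ring
      rw [e, e']
      exact mul_dvd_mul_iff_left two_ne_zero
    have c2 : ((H + H : ℕ) : ℤ) ∣ 2 * ((H + i : ℕ) : ℤ) + 2 * a' ↔ (H : ℤ) ∣ i + a' := by
      have e : 2 * ((H + i : ℕ) : ℤ) + 2 * a' = 2 * ((i + a') + H) := by push_cast; ring
      have e' : ((H + H : ℕ) : ℤ) = 2 * H := by push_cast; ring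
      rw [e, e', mul_dvd_mul_iff_left two_ne_zero]
      exact dvd_add_self_right
    unfold SeN_g1
    by_cases h : (H : ℤ) ∣ i + a'
    · rw [if_pos (c1.2 h), if_pos (c2.2 h), if_pos h]
      obtain ⟨q, hq⟩ := h
      have e1 : (2 * (i : ℤ) + 2 * a') / ((H + H : ℕ) : ℤ) = q := by
        refine Int.ediv_eq_of_eq_mul_right (by push_cast; omega) ?_
        push_cast
        linear_combination 2 * hq
      have e2 : (2 * ((H + i : ℕ) : ℤ) + 2 * a') / ((H + H : ℕ) : ℤ) = q + 1 := by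
        refine Int.ediv_eq_of_eq_mul_right (by push_cast; omega) ?_
        push_cast
        linear_combination 2 * hq
      rw [e1, e2, mul_add, mul_one, SeN_sg_add]
      by_cases hb : Even b
      · rw [SeN_sg_even hb, SeN_sg_even (hb.mul_right q), if_pos hb]
        norm_num
      · rw [SeN_sg_odd hb, if_neg hb]
        ring
    · rw [if_neg (fun h' => h (c1.1 h')), if_neg (fun h' => h (c2.1 h')), if_neg h, add_zero]
  rw [Finset.sum_congr rfl h1]
  obtain ⟨r, hr, hr'⟩ : ∃ r : ℕ, r < H ∧ (H : ℤ) ∣ r + a' := by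
    refine ⟨((-a') % (H : ℤ)).toNat, ?_, ?_⟩
    · have := Int.emod_lt_of_pos (-a') hH'
      have := Int.emod_nonneg (-a') hH'.ne'
      omega
    · rw [Int.toNat_of_nonneg (Int.emod_nonneg _ hH'.ne')]
      have h3 := Int.emod_add_mul_ediv (-a') H
      exact ⟨-((-a') / (H : ℤ)), by linear_combination h3⟩
  rw [Finset.sum_eq_single r]
  · rw [if_pos hr']
  · intro i hi hir
    rw [if_neg]
    intro hd
    have h4 : (H : ℤ) ∣ (i : ℤ) - r := by
      have := dvd_sub hd hr'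
      have e : ((i : ℤ) + a') - ((r : ℤ) + a') = (i : ℤ) - r := by ring
      rwa [e] at this
    have h5 : (i : ℤ) - r = 0 := by
      refine Int.eq_zero_of_abs_lt_dvd h4 ?_
      have := Finset.mem_range.1 hi
      rw [abs_lt]
      constructor <;> omega
    exact hir (by omega)
  · intro h
    exact absurd (Finset.mem_range.2 hr) h

private theorem SeN_F1_oddchar {M : ℕ} (hM : Even M) {a : ℤ} (ha : ¬ Even a) (b : ℤ) :
    SeN_F1 M a b = 0 := by
  unfold SeN_F1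
  refine Finset.sum_eq_zero fun i _ => ?_
  unfold SeN_g1
  rw [if_neg]
  intro hd
  obtain ⟨H, hH⟩ := hM
  apply ha
  have h1 : (2 : ℤ) ∣ 2 * ((i : ℕ) : ℤ) + a := by
    refine dvd_trans ?_ hd
    exact ⟨H, by rw [hH]; push_cast; ring⟩
  have h2 : (2 : ℤ) ∣ a := (Int.dvd_add_right (Dvd.intro _ rfl)).1 h1
  exact even_iff_two_dvd.2 h2

private theorem SeN_F1_even {M : ℕ} (hM : Even M) (hM0 : 0 < M) (a b : ℤ) :
    SeN_F1 M a b = if Even a ∧ Even b then 2 else 0 := by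
  obtain ⟨H, rfl⟩ := hM
  by_cases ha : Even a
  · obtain ⟨a', rfl⟩ := ha
    have h1 : a' + a' = 2 * a' := by ring
    have h2 : Even (2 * a') := even_two_mul a'
    rw [h1, SeN_F1_two (by omega) a' b]
    simp [h2]
  · rw [SeN_F1_oddchar ⟨H, rfl⟩ ha b]
    simp [ha]

private theorem SeN_F1_odd_eq {M : ℕ} (hM : Odd M) (a b : ℤ) : SeN_F1 M a b = SeN_sg (a * b) := by
  have hM0 : 0 < M := hM.pos
  have hM0' : (0 : ℤ) < M := by exact_mod_cast hM0
  obtain ⟨H, hH⟩ := hM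
  -- the solution of `2 r + a ≡ 0`
  obtain ⟨r, hr, hr'⟩ : ∃ r : ℕ, r < M ∧ (M : ℤ) ∣ 2 * (r : ℤ) + a := by
    refine ⟨((a * H) % (M : ℤ)).toNat, ?_, ?_⟩
    · have := Int.emod_lt_of_pos (a * H) hM0'
      have := Int.emod_nonneg (a * H) hM0'.ne'
      omega
    · rw [Int.toNat_of_nonneg (Int.emod_nonneg _ hM0'.ne')]
      have h3 := Int.emod_add_mul_ediv (a * H) M
      refine ⟨a - 2 * ((a * H) / (M : ℤ)), ?_⟩
      have hHz : (M : ℤ) = 2 * H + 1 := by exact_mod_cast hH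
      linear_combination 2 * h3 - a * hHz
  unfold SeN_F1
  rw [Finset.sum_eq_single (⟨r, hr⟩ : Fin M)]
  · unfold SeN_g1
    rw [if_pos hr']
    obtain ⟨q, hq⟩ := hr'
    have e1 : (2 * (r : ℤ) + a) / (M : ℤ) = q := Int.ediv_eq_of_eq_mul_right hM0'.ne' hq
    show SeN_sg (b * ((2 * (r : ℤ) + a) / (M : ℤ))) = SeN_sg (a * b)
    rw [e1]
    have hHz : (M : ℤ) = 2 * H + 1 := by exact_mod_cast hH
    have h4 : b * q = a * b + 2 * (b * (r - H * q)) := by
      rw [hHz] at hq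
      linear_combination (-b) * hq
    rw [h4, SeN_sg_add, SeN_sg_even (even_two_mul _), mul_one]
  · intro i _ hir
    unfold SeN_g1
    rw [if_neg]
    intro hd
    apply hir
    have h3 : (M : ℤ) ∣ 2 * ((i : ℕ) - (r : ℕ) : ℤ) := by
      have := dvd_sub hd hr'
      have e : (2 * ((i : ℕ) : ℤ) + a) - (2 * ((r : ℕ) : ℤ) + a) =
        2 * (((i : ℕ) : ℤ) - ((r : ℕ) : ℤ)) := by ring
      rwa [e] at this
    have h4 : IsCoprime (M : ℤ) 2 := by
      have h5' : Odd M := ⟨H, hH⟩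
      have h5 : Nat.Coprime M 2 := h5'.coprime_two_right
      exact_mod_cast Nat.isCoprime_iff_coprime.2 h5
    have h6 : (M : ℤ) ∣ ((i : ℕ) : ℤ) - ((r : ℕ) : ℤ) := h4.dvd_of_dvd_mul_left h3
    have h7 : ((i : ℕ) : ℤ) - ((r : ℕ) : ℤ) = 0 := by
      refine Int.eq_zero_of_abs_lt_dvd h6 ?_
      have := i.2
      rw [abs_lt]
      constructor <;> omega
    exact Fin.ext (by show (i : ℕ) = r; omega)
  · intro h
    exact absurd (Finset.mem_univ _) h

/-- Dimensions of the eigenspaces of an involution with a given trace. -/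
private theorem SeN_invol_dim {V : Type*} [AddCommGroup V] [Module ℂ V] [FiniteDimensional ℂ V]
    (σ : V →ₗ[ℂ] V) (hσ : ∀ f, σ (σ f) = f) (ε : ℂ) (hε : ε * ε = 1) (E : Submodule ℂ V)
    (hE : ∀ f, f ∈ E ↔ σ f = ε • f) :
    2 * (finrank ℂ E : ℂ) = (finrank ℂ V : ℂ) + ε * LinearMap.trace ℂ V σ := by
  have hP : LinearMap.IsProj E ((1 / 2 : ℂ) • (LinearMap.id + ε • σ)) := by
    refine ⟨fun x => ?_, fun x hx => ?_⟩
    · rw [hE]
      simp only [LinearMap.smul_apply, LinearMap.add_apply, LinearMap.id_apply, map_smul, map_add,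
        hσ]
      have h1 : ε • ((1 / 2 : ℂ) • (x + ε • σ x)) = (1 / 2 : ℂ) • (ε • x + (ε * ε) • σ x) := by
        module
      rw [hε, one_smul] at h1
      rw [h1]
      module
    · have h1 := (hE x).1 hx
      simp only [LinearMap.smul_apply, LinearMap.add_apply, LinearMap.id_apply, h1]
      rw [smul_smul, hε, one_smul, ← two_smul ℂ x, smul_smul]
      norm_num
  have h1 := hP.trace
  rw [← h1, map_smul, map_add, map_smul, LinearMap.trace_id, smul_eq_mul, smul_eq_mul]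
  ring

namespace PerData

variable (S : PerData)

/-- The involution `f ↦ f (-z)` for half-integral characteristics. -/
private theorem SeN_exists_invol (u : ℤ) {α β : Fin 2 → ℝ} (hα : ∀ i, ∃ k : ℤ, 2 * α i = k)
    (hβ : ∀ i, ∃ k : ℤ, 2 * β i = k) :
    ∃ σ : S.Th u α β →ₗ[ℂ] S.Th u α β, ∀ f z, (σ f : C2 → ℂ) z = (f : C2 → ℂ) (-z) := by
  have hT : S.Th u (-α) (-β) = S.Th u α β := by
    refine S.th_congr u (fun i => ?_) fun i => ?_
    · obtain ⟨k, hk⟩ := hα i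
      exact ⟨-k, by rw [Pi.neg_apply]; push_cast; linarith⟩
    · obtain ⟨k, hk⟩ := hβ i
      exact ⟨-k, by rw [Pi.neg_apply]; push_cast; linarith⟩
  have hmem : ∀ g : C2 → ℂ, g ∈ S.Th u α β → (fun z => g (-z)) ∈ S.Th u α β := by
    intro g hg
    have h1 := S.th_neg_arg hg
    rw [hT] at h1
    exact h1
  exact ⟨{  toFun := fun f => ⟨fun z => (f : C2 → ℂ) (-z), hmem _ f.2⟩
            map_add' := fun f g => rfl
            map_smul' := fun c f => rfl }, fun f z => rfl⟩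

private theorem SeN_th_periodic {u : ℤ} {α β : Fin 2 → ℝ} {f : C2 → ℂ} (hf : f ∈ S.Th u α β)
    (q : Z2) (z : C2) : f (z + S.dv q) = cexp (2 * Real.pi * I * ((rdot α q : ℝ) : ℂ)) * f z := by
  have h := hf.2 0 q z
  rw [S.tv_zero, add_zero] at h
  rw [h]
  unfold J
  have e1 : rdot β (0 : Z2) = 0 := by simp [rdot]
  have e2 : dot (0 : Z2) (S.tv 0) = 0 := by simp [dot]
  have e3 : dot (0 : Z2) z = 0 := by simp [dot]
  rw [e1, S.tv_zero] at *
  rw [add_zero]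
  have e4 : dot (0 : Z2) (0 : C2) = 0 := by simp [dot]
  rw [e4, e3]
  simp

/-- The trace of the involution. -/
private theorem SeN_trace_invol {N : ℕ} (hN : 1 ≤ N) {α β : Fin 2 → ℝ} {a b : Z2}
    (ha : ∀ i, 2 * α i = a i) (hb : ∀ i, 2 * β i = b i)
    (σ : S.Th (N : ℤ) α β →ₗ[ℂ] S.Th (N : ℤ) α β)
    (hσ : ∀ f z, (σ f : C2 → ℂ) z = (f : C2 → ℂ) (-z)) :
    LinearMap.trace ℂ _ σ = ((SeN_F1 N (a 0) (b 0) * SeN_F1 (N * S.d) (a 1) (b 1) : ℤ) : ℂ) := by
  classical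
  obtain ⟨e, he⟩ := S.exists_equiv hN α β
  have hd0 : 0 < S.d := S.d_pos
  have hN' : (0 : ℤ) < N := by exact_mod_cast hN
  have hNd : (0 : ℤ) < N * S.d := by positivity
  have hσe : ∀ f i, e (σ f) i = S.fc α f (-S.rep N i - a) := by
    intro f i
    rw [he]
    have h1 : ((σ f : S.Th (N : ℤ) α β) : C2 → ℂ) = fun z => (f : C2 → ℂ) (-z) := funext (hσ f)
    rw [h1]
    exact S.fc_neg f.2.1.continuous (S.SeN_th_periodic f.2) ha _
  have hdiag : ∀ i, e (σ (e.symm (Pi.single i 1))) i =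
      ((SeN_g1 N (a 0) (b 0) i.1 * SeN_g1 (N * S.d) (a 1) (b 1) i.2 : ℤ) : ℂ) := by
    intro i
    obtain ⟨f, hf⟩ : ∃ f, f = e.symm (Pi.single i 1) := ⟨_, rfl⟩
    have hef : e f = Pi.single i 1 := by rw [hf, LinearEquiv.apply_symm_apply]
    rw [← hf, hσe]
    by_cases h01 : ((N : ℤ) ∣ 2 * ((i.1 : ℕ) : ℤ) + a 0) ∧
        ((N * S.d : ℕ) : ℤ) ∣ 2 * ((i.2 : ℕ) : ℤ) + a 1
    · obtain ⟨⟨k0, hk0⟩, k1, hk1⟩ := h01
      have hs : -S.rep N i - a = S.rep N i + S.sh N ![-k0, -k1] := by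
        funext j
        fin_cases j
        · show -((i.1 : ℕ) : ℤ) - a 0 = ((i.1 : ℕ) : ℤ) + (N : ℤ) * (-k0)
          linarith
        · show -((i.2 : ℕ) : ℤ) - a 1 = ((i.2 : ℕ) : ℤ) + (N : ℤ) * S.d * (-k1)
          push_cast at hk1
          linarith
      rw [hs, S.fc_rec f.2, ← he, hef, Pi.single_eq_same, mul_one]
      have hd : (S.d : ℂ) ≠ 0 := by exact_mod_cast hd0.ne'
      have hαc : ∀ j, (2 : ℂ) * (α j : ℂ) = (a j : ℂ) := fun j => by exact_mod_cast ha j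
      have hβc : ∀ j, (2 : ℂ) * (β j : ℂ) = (b j : ℂ) := fun j => by exact_mod_cast hb j
      have hk0c : (2 : ℂ) * ((i.1 : ℕ) : ℂ) + (a 0 : ℂ) = (N : ℂ) * k0 := by exact_mod_cast hk0
      have hk1c : (2 : ℂ) * ((i.2 : ℕ) : ℂ) + (a 1 : ℂ) = (N : ℂ) * S.d * k1 := by
        exact_mod_cast hk1
      have hexp : -(2 * Real.pi * I * ((rdot β ![-k0, -k1] : ℝ) : ℂ)) +
          Real.pi * I * (N : ℤ) * dot ![-k0, -k1] (S.tv ![-k0, -k1]) +
          2 * Real.pi * I * S.rz α (S.rep N i) (S.tv ![-k0, -k1]) =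
          Real.pi * I * ((b 0 * k0 + b 1 * k1 : ℤ) : ℂ) := by
        obtain ⟨w, hw⟩ : ∃ w, w = S.tv ![-k0, -k1] := ⟨_, rfl⟩
        rw [← hw]
        have e1 : ((rdot β ![-k0, -k1] : ℝ) : ℂ) = (β 0 : ℂ) * (-k0) + (β 1 : ℂ) * (-k1) := by
          simp [rdot]
        have e2 : dot ![-k0, -k1] w = -(k0 : ℂ) * w 0 + -(k1 : ℂ) * w 1 := by
          simp [dot]
        have e3 : S.rz α (S.rep N i) w = (((i.1 : ℕ) : ℂ) + α 0) * w 0 +
            (((i.2 : ℕ) : ℂ) + α 1) / (S.d : ℂ) * w 1 := by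
          simp [rz, rep]
        rw [e1, e2, e3]
        have e4 : (((i.2 : ℕ) : ℂ) + α 1) / (S.d : ℂ) = (N : ℂ) * k1 / 2 := by
          rw [div_eq_div_iff hd two_ne_zero]
          linear_combination hk1c + hαc 1
        have e5 : ((i.1 : ℕ) : ℂ) + α 0 = (N : ℂ) * k0 / 2 := by
          linear_combination (1 / 2 : ℂ) * hk0c + (1 / 2 : ℂ) * hαc 0
        rw [e4, e5]
        push_cast
        linear_combination (Real.pi * I * k0) * hβc 0 + (Real.pi * I * k1) * hβc 1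
      unfold rf
      rw [hexp, SeN_cexp_sg, SeN_sg_add]
      unfold SeN_g1
      rw [if_pos ⟨k0, hk0⟩, if_pos ⟨k1, hk1⟩, hk0, hk1, Int.mul_ediv_cancel_left _ hN'.ne',
        Int.mul_ediv_cancel_left _ (by push_cast; exact hNd.ne')]
    · have hg : SeN_g1 N (a 0) (b 0) i.1 * SeN_g1 (N * S.d) (a 1) (b 1) i.2 = 0 := by
        rcases not_and_or.1 h01 with h | h
        · have h2 : SeN_g1 N (a 0) (b 0) i.1 = 0 := if_neg h
          rw [h2, zero_mul]
        · have h2 : SeN_g1 (N * S.d) (a 1) (b 1) i.2 = 0 := if_neg h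
          rw [h2, mul_zero]
      rw [hg, Int.cast_zero]
      obtain ⟨m, hm⟩ : ∃ m, m = -S.rep N i - a := ⟨_, rfl⟩
      have m0 : m 0 = -((i.1 : ℕ) : ℤ) - a 0 := by rw [hm]; rfl
      have m1 : m 1 = -((i.2 : ℕ) : ℤ) - a 1 := by rw [hm]; rfl
      have r0 := Int.emod_nonneg (m 0) hN'.ne'
      have r0' := Int.emod_lt_of_pos (m 0) hN'
      have r1 := Int.emod_nonneg (m 1) hNd.ne'
      have r1' := Int.emod_lt_of_pos (m 1) hNd
      have q0 := Int.emod_add_mul_ediv (m 0) N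
      have q1 := Int.emod_add_mul_ediv (m 1) (N * S.d)
      obtain ⟨s0, hs0⟩ := Int.eq_ofNat_of_zero_le r0
      obtain ⟨s1, hs1⟩ := Int.eq_ofNat_of_zero_le r1
      rw [hs0] at r0' q0
      rw [hs1] at r1' q1
      obtain ⟨p0, hp0⟩ : ∃ p0, p0 = m 0 / (N : ℤ) := ⟨_, rfl⟩
      obtain ⟨p1, hp1⟩ : ∃ p1, p1 = m 1 / ((N : ℤ) * S.d) := ⟨_, rfl⟩
      rw [← hp0] at q0
      rw [← hp1] at q1
      have t0 : s0 < N := by exact_mod_cast r0'
      have t1 : s1 < N * S.d := by exact_mod_cast r1'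
      have hs : m = S.rep N (⟨s0, t0⟩, ⟨s1, t1⟩) + S.sh N ![p0, p1] := by
        funext j
        fin_cases j
        · show m 0 = (s0 : ℤ) + (N : ℤ) * p0
          exact q0.symm
        · show m 1 = (s1 : ℤ) + (N : ℤ) * S.d * p1
          exact q1.symm
      rw [← hm, hs, S.fc_rec f.2, ← he, hef, Pi.single_eq_of_ne, mul_zero]
      intro hEq
      apply h01
      have u0 : s0 = (i.1 : ℕ) := congrArg (fun x : Fin N × Fin (N * S.d) => (x.1 : ℕ)) hEq
      have u1 : s1 = (i.2 : ℕ) := congrArg (fun x : Fin N × Fin (N * S.d) => (x.2 : ℕ)) hEq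
      refine ⟨⟨-p0, ?_⟩, -p1, ?_⟩
      · rw [m0, u0] at q0
        linarith
      · rw [m1, u1] at q1
        push_cast
        linarith
  rw [← LinearMap.trace_conj' σ e, LinearMap.trace_eq_matrix_trace ℂ (Pi.basisFun ℂ _),
    LinearMap.toMatrix_eq_toMatrix']
  have h1 : Matrix.trace (LinearMap.toMatrix' (e.conj σ)) =
      ∑ i, e (σ (e.symm (Pi.single i 1))) i := by
    unfold Matrix.trace
    refine Finset.sum_congr rfl fun i _ => ?_
    rw [Matrix.diag_apply, LinearMap.toMatrix'_apply, LinearEquiv.conj_apply_apply]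
  rw [h1, Finset.sum_congr rfl fun i _ => hdiag i, ← Int.cast_sum]
  congr 1
  rw [Fintype.sum_prod_type]
  unfold SeN_F1
  rw [Finset.sum_mul_sum]

/-- The parity dimension for odd level, even `d` and the characteristics `hc = (1/2, 0)`.
PROOF: as in `finrank_par_odd` (end of q3/PoB.lean; copy what is private there, with names beginning `SeN`): the trace of the involution is
`F1 N 1 1 * F1 (N d) 0 0 = (-1) * 2 = -2` (`F1_odd_eq`, `F1_even`). -/
theorem finrank_hc {N : ℕ} (hN : 1 ≤ N) (ho : Odd N) (hd : Even S.d) :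
    2 * (finrank ℂ (S.Th N hc hc ⊓ Par (-1) : Submodule ℂ (C2 → ℂ)) : ℤ) = (N : ℤ) ^ 2 * S.d + 2 := by
  classical
  obtain ⟨σ, hσ⟩ := S.SeN_exists_invol (N : ℤ) (α := hc) (β := hc)
    (fun i => by fin_cases i; exacts [⟨1, by simp [hc]⟩, ⟨0, by simp [hc]⟩])
    (fun i => by fin_cases i; exacts [⟨1, by simp [hc]⟩, ⟨0, by simp [hc]⟩])
  have hab : ∀ i, 2 * hc i = ((![1, 0] : Z2) i : ℝ) := by
    intro i
    fin_cases i
    · simp [hc]
    · simp [hc]
  have htr := S.SeN_trace_invol hN hab hab σ hσ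
  have hNd : 0 < N * S.d := Nat.mul_pos hN S.d_pos
  have hF : SeN_F1 N ((![1, 0] : Z2) 0) ((![1, 0] : Z2) 0) *
      SeN_F1 (N * S.d) ((![1, 0] : Z2) 1) ((![1, 0] : Z2) 1) = -2 := by
    show SeN_F1 N 1 1 * SeN_F1 (N * S.d) 0 0 = -2
    rw [SeN_F1_odd_eq ho, SeN_F1_even (hd.mul_left N) hNd, if_pos ⟨Even.zero, Even.zero⟩,
      SeN_sg_odd (by decide)]
    norm_num
  rw [hF] at htr
  have hfin := S.finite_th (N : ℤ) hc hc
  obtain ⟨E, hEdef⟩ : ∃ E, E = (Par (-1 : ℂ)).comap (S.Th (N : ℤ) hc hc).subtype := ⟨_, rfl⟩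
  have hσσ : ∀ f, σ (σ f) = f := by
    intro f
    refine Subtype.ext (funext fun z => ?_)
    rw [hσ, hσ, neg_neg]
  have hE : ∀ f, f ∈ E ↔ σ f = (-1 : ℂ) • f := by
    intro f
    rw [hEdef, Submodule.mem_comap]
    constructor
    · intro h
      refine Subtype.ext (funext fun z => ?_)
      rw [hσ]
      exact h z
    · intro h z
      have h1 := congrArg (fun g : S.Th (N : ℤ) hc hc => (g : C2 → ℂ) z) h
      simp only [hσ] at h1
      exact h1
  have h1 := SeN_invol_dim σ hσσ (-1 : ℂ) (by norm_num) E hE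
  have h2 : finrank ℂ (S.Th (N : ℤ) hc hc ⊓ Par (-1 : ℂ) : Submodule ℂ (C2 → ℂ)) = finrank ℂ E := by
    rw [← Submodule.map_comap_subtype, Submodule.finrank_map_subtype_eq, hEdef]
  have h3 := S.finrank_th (u := (N : ℤ)) (by omega) hc hc
  have h4 : (finrank ℂ (S.Th (N : ℤ) hc hc) : ℂ) = (((N : ℤ) ^ 2 * S.d : ℤ) : ℂ) := by
    rw [← h3]; push_cast; rfl
  rw [h4, htr] at h1
  rw [h2]
  have h5 : ((2 * (finrank ℂ E : ℤ) : ℤ) : ℂ) = (((N : ℤ) ^ 2 * S.d + 2 : ℤ) : ℂ) := by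
    push_cast at h1 ⊢
    rw [h1]
    ring
  exact_mod_cast h5

/-- Existence of sections of the second type.
PROOF: `b` is odd, `b = 2 k + 1`, `4 k (k + 1) = 2 d a²`; as `a` is odd, `4 ∣ d` (`8 ∣ b² - 1`), in particular `d` is even.  `finrank_hc`, `finrank_le_van_odd` (q2/VanD.lean):
`a² d / 2 + 1 - k (k + 1) = 1`; see `exists_pell_section` (q2/Mini.lean). -/
theorem exists_pell_section2 {a b : ℕ} (ha : Odd a) (hp : b ^ 2 = 2 * S.d * a ^ 2 + 1) :
    ∃ f : C2 → ℂ, f ∈ S.Th a hc hc ∧ f ∈ Par (-1) ∧ f ∈ Van b 0 ∧ f ≠ 0 := by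
  have hbo : Odd b := by
    have h1 : Odd (b ^ 2) := ⟨S.d * a ^ 2, by rw [hp]; ring⟩
    rcases Nat.even_or_odd b with h2 | h2
    · exact absurd (h2.pow_of_ne_zero two_ne_zero) (Nat.not_even_iff_odd.2 h1)
    · exact h2
  obtain ⟨k, hk⟩ := hbo
  have h1 : 2 * (k * (k + 1)) = a ^ 2 * S.d := by
    rw [hk] at hp
    nlinarith
  have hd : Even S.d := by
    have h2 : Even (a ^ 2 * S.d) := ⟨k * (k + 1), by rw [← h1]; ring⟩
    rcases Nat.even_mul.1 h2 with h3 | h3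
    · exact absurd h3 (Nat.not_even_iff_odd.2 ha.pow)
    · exact h3
  have : FiniteDimensional ℂ (S.Th a hc hc) := S.finite_th _ _ _
  have : FiniteDimensional ℂ (S.Th a hc hc ⊓ Par (-1) : Submodule ℂ (C2 → ℂ)) :=
    Submodule.finiteDimensional_of_le inf_le_left
  have h2 := finrank_le_van_odd (S.Th a hc hc ⊓ Par (-1)) (fun f hf => hf.1.1) inf_le_right k
  have h3 := S.finrank_hc (N := a) ha.pos ha hd
  have h4 : 0 < finrank ℂ (S.Th a hc hc ⊓ Par (-1) ⊓ Van (2 * k + 1) 0 : Submodule ℂ (C2 → ℂ)) := by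
    zify at h1 h2 ⊢
    rw [← h1] at h3
    linarith
  have h5 : (S.Th a hc hc ⊓ Par (-1) ⊓ Van (2 * k + 1) 0 : Submodule ℂ (C2 → ℂ)) ≠ ⊥ := by
    intro h6
    rw [h6, finrank_bot] at h4
    exact lt_irrefl 0 h4
  obtain ⟨f, hf, hf0⟩ := Submodule.exists_mem_ne_zero_of_ne_bot h5
  refine ⟨f, hf.1.1, hf.1.2, ?_, hf0⟩
  rw [hk]
  exact hf.2

end PerData

end Q2T
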