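import Pool.Agent.H.MP_89f84f_ag.q4.BzN
import Pool.Agent.H.MP_89f84f_ag.q4.SeN
import Pool.Agent.H.MP_89f84f_ag.q4.ClN

set_option autoImplicit false

open Complex Topology Filter Asymptotics Metric Set

namespace Q2T

namespace PerData

variable (S : PerData)

/-- `σ` is an automorphism of the Néron-Severi group which preserves self-intersection numbers and the polarisation. -/
structure NAut (σ : Matrix (Fin 2) (Fin 2) ℂ → Matrix (Fin 2) (Fin 2) ℂ) : Prop where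
  bij : Set.BijOn σ (S.NS : Set (Matrix (Fin 2) (Fin 2) ℂ)) (S.NS : Set (Matrix (Fin 2) (Fin 2) ℂ))
  add : ∀ H ∈ S.NS, ∀ H' ∈ S.NS, σ (H + H') = σ H + σ H'
  pf : ∀ H ∈ S.NS, S.pf (σ H) = S.pf H
  H0 : σ S.H0 = S.H0

namespace NAut

variable {S : PerData} {σ : Matrix (Fin 2) (Fin 2) ℂ → Matrix (Fin 2) (Fin 2) ℂ} (hσ : S.NAut σ)

include hσ

theorem mem {H : Matrix (Fin 2) (Fin 2) ℂ} (hH : H ∈ S.NS) : σ H ∈ S.NS := hσ.bij.mapsTo hH

theorem zero : σ 0 = 0 := by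
  have h := hσ.add 0 S.NS.zero_mem 0 S.NS.zero_mem
  rw [add_zero] at h
  exact left_eq_add.1 h

theorem neg {H : Matrix (Fin 2) (Fin 2) ℂ} (hH : H ∈ S.NS) : σ (-H) = -σ H := by
  have h := hσ.add H hH (-H) (S.NS.neg_mem hH)
  rw [add_neg_cancel, hσ.zero] at h
  exact (neg_eq_of_add_eq_zero_right h.symm).symm

theorem nsmul {H : Matrix (Fin 2) (Fin 2) ℂ} (hH : H ∈ S.NS) (n : ℕ) : σ ((n : ℂ) • H) = (n : ℂ) • σ H := by
  have key : ∀ n : ℕ, σ (n • H) = n • σ H := by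
    intro n
    induction n with
    | zero => rw [zero_smul, zero_smul, hσ.zero]
    | succ n ih => rw [succ_nsmul, succ_nsmul, hσ.add _ (S.NS.nsmul_mem hH n) _ hH, ih]
  rw [Nat.cast_smul_eq_nsmul, Nat.cast_smul_eq_nsmul]
  exact key n

theorem ip {H H' : Matrix (Fin 2) (Fin 2) ℂ} (hH : H ∈ S.NS) (hH' : H' ∈ S.NS) : S.ip (σ H) (σ H') = S.ip H H' := by
  unfold PerData.ip
  rw [← hσ.add H hH H' hH', hσ.pf _ (S.NS.add_mem hH hH'), hσ.pf _ hH, hσ.pf _ hH']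

/-- PROOF: `pd_of_ip` with the polarisation, `ip_H0`, `pf_pos`, `dg_pos`. -/
theorem pd {H : Matrix (Fin 2) (Fin 2) ℂ} (hH : H ∈ S.NS) (hp : PD H) : PD (σ H) := by
  refine S.pd_of_ip (hσ.mem hH).1 S.H0_herm S.H0_pd ?_ ?_
  · rw [hσ.pf _ hH]
    exact S.pf_pos hH.1 hp
  · have h1 := hσ.ip hH S.H0_mem
    rw [hσ.H0] at h1
    rw [h1]
    exact S.ip_pos hH.1 S.H0_herm hp S.H0_pd

end NAut

/-- A class `Γ` with `Γ² + 1 = b²` is negative with respect to `P` and has a coprime section in the conjugate class: the numerical part.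
PROOF: `G' = σ Γ`.  `ip Γ G' ≥ b²` (hypothesis).  Hodge (`hodge_ip` for `Γ + G'` and `P`): `4 pf (Γ + G') pf P ≤ (ip (Γ + G') P)² = (2 ip Γ P)² < 8 pf P b²`
(`ip (σ Γ) P = ip (σ Γ) (σ P) = ip Γ P`), so `pf (Γ + G') < 2 b²`, that is `2 pf Γ + ip Γ G' < 2 b²`, `ip Γ G' < b² + 1`; by `ip_int`
`ip Γ G' = b²`.  `δ = Γ - σ Γ`: `2 pf δ = 2 (b² - 1) - 2 b² = - 2` (`ip_self`, `ip_sub`, `ip_comm`). -/
theorem num_part {P Γ : Matrix (Fin 2) (Fin 2) ℂ} {σ : Matrix (Fin 2) (Fin 2) ℂ → Matrix (Fin 2) (Fin 2) ℂ} (hσ : S.NAut σ)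
    (hP : P ∈ S.NS) (hp : PD P) (hσP : σ P = P) (hΓ : Γ ∈ S.NS) {b : ℕ} (hb : 2 * S.pf Γ + 1 = (b : ℝ) ^ 2)
    (hneg : S.ip Γ P ^ 2 < 2 * S.pf P * (b : ℝ) ^ 2) (hip : (b : ℝ) ^ 2 ≤ S.ip Γ (σ Γ)) :
    S.pf (Γ - σ Γ) = -1 := by
  have hG := hσ.mem hΓ
  have hPp := S.pf_pos hP.1 hp
  have e1 : S.ip (σ Γ) P = S.ip Γ P := by
    have h := hσ.ip hΓ hP
    rwa [hσP] at h
  have e2 : S.pf (σ Γ) = S.pf Γ := hσ.pf _ hΓ
  have h1 := S.hodge_ip (hΓ.1.add hG.1) hP.1 hp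
  rw [S.ip_add hΓ.1 hG.1 hP.1, e1] at h1
  have h2 : S.pf (Γ + σ Γ) < 2 * (b : ℝ) ^ 2 := by
    by_contra hcon
    push Not at hcon
    have h3 := mul_le_mul_of_nonneg_right hcon hPp.le
    nlinarith
  have h3 : S.ip Γ (σ Γ) < (b : ℝ) ^ 2 + 1 := by
    unfold PerData.ip
    rw [e2]
    linarith
  obtain ⟨k, hk⟩ := S.ip_int hΓ hG
  have h4 : S.ip Γ (σ Γ) = (b : ℝ) ^ 2 := by
    rw [hk] at hip h3 ⊢
    have h5 : ((b : ℤ) ^ 2 : ℤ) ≤ k := by exact_mod_cast hip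
    have h6 : k < (b : ℤ) ^ 2 + 1 := by exact_mod_cast h3
    have h7 : k = (b : ℤ) ^ 2 := by omega
    rw [h7]
    push_cast
    rfl
  have h5 := S.ip_self (Γ - σ Γ)
  rw [S.ip_sub hΓ.1 hG.1 (hΓ.1.sub hG.1), S.ip_comm Γ (Γ - σ Γ), S.ip_comm (σ Γ) (Γ - σ Γ),
    S.ip_sub hΓ.1 hG.1 hΓ.1, S.ip_sub hΓ.1 hG.1 hG.1, S.ip_self, S.ip_self,
    S.ip_comm (σ Γ) Γ, h4, e2] at h5
  linarith

/-- The conjugate class has no common component with the minimal function. -/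
private theorem GaN_bez (hA : S.Aniso) {P H : Matrix (Fin 2) (Fin 2) ℂ} {χ s : C2 → ℂ} {m : ℕ} (hP : P ∈ S.NS) (hp : PD P)
    (N : S.Neg2 P H χ s m) (hD : S.Dch s) {σ : Matrix (Fin 2) (Fin 2) ℂ → Matrix (Fin 2) (Fin 2) ℂ} (hσ : S.NAut σ)
    (hσP : σ P = P) (hne : σ H ≠ H) {χ' t : C2 → ℂ} (hχ' : S.SC (σ H) χ') (ht : t ∈ S.TH (σ H) χ') (ht0 : t ≠ 0) {k : ℕ}
    (hk : t ∈ Van k 0) : ((m * k : ℕ) : ℝ) ≤ S.ip H (σ H) := by
  have hG := hσ.mem N.ns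
  rcases hD (σ H) χ' t hG hχ' ht ht0 with h | h
  · exact S.bezout_NS N.ns hG N.sc hχ' N.mem ht N.ne ht0 h N.van hk
  · exfalso
    obtain ⟨h', hh, he⟩ := h
    have hχ0 : ∀ x ∈ S.Lat, χ x ≠ 0 := by
      intro x hx h0
      have h1 := N.sc.1 x hx
      rw [h0, norm_zero] at h1
      exact zero_ne_one h1
    have hT := S.TH_quot N.mem N.ne hχ0 ht hh he
    have hsc := S.SC_sub hχ' N.sc
    have hsub := S.NS.sub_mem hG N.ns
    have h0 : h' ≠ 0 := by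
      rintro rfl
      exact ht0 (by rw [he, mul_zero])
    have hpsd := S.TH_psd hsub.1 hsc.1 hT h0
    rcases hA.cases hsub hpsd with h1 | h1
    · exact hne (sub_eq_zero.1 h1)
    · have h2 := S.ip_pos hsub.1 hP.1 h1 hp
      rw [S.ip_sub hG.1 N.ns.1 hP.1] at h2
      have h3 := hσ.ip N.ns hP
      rw [hσP] at h3
      linarith

/-- A section of the class `pull A (v H0)` with a given order, from a classical one. -/
private theorem GaN_sec {H : Matrix (Fin 2) (Fin 2) ℂ} {S' : PerData} {n : ℕ} {A : C2 ≃ₗ[ℂ] C2} (h : S.NF H S' n A)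
    {v : ℤ} {α β : Fin 2 → ℝ} {f : C2 → ℂ} (hf : f ∈ S'.Th v α β) (hf0 : f ≠ 0) {k : ℕ} (hk : f ∈ Van k 0) :
    ∃ χ t : C2 → ℂ, S.SC (pull A ((v : ℂ) • S'.H0)) χ ∧ t ∈ S.TH (pull A ((v : ℂ) • S'.H0)) χ ∧ t ≠ 0 ∧
      t ∈ Van k 0 := by
  obtain ⟨χ, hχ, hmem⟩ := h.of_classical hf
  refine ⟨χ, _, hχ, hmem, ?_, ?_⟩
  · intro h0
    apply hf0
    funext w
    have h1 := congrFun h0 (A.symm w)
    simp only [LinearEquiv.apply_symm_apply, Pi.zero_apply] at h1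
    exact (mul_eq_zero.1 h1).resolve_left (S'.gz_ne _ _)
  · have h1 := (van_mul_unit (S'.gz_diff v).continuous (S'.gz_ne v 0)).2 hk
    exact (van_comp_equiv A).2 h1

private theorem GaN_smul_inj {c : ℂ} (hc : c ≠ 0) {H H' : Matrix (Fin 2) (Fin 2) ℂ} (h : c • H = c • H') : H = H' :=
  smul_right_injective _ hc h

/-- A multiple of `S.H0` in the Néron-Severi group. -/
private theorem GaN_half {r : ℝ} (h : (r : ℂ) • S.H0 ∈ S.NS) : ∃ k : ℤ, r = k := by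
  obtain ⟨k, hk⟩ := h.2 (S.tv ![1, 0] + S.dv 0) ⟨![1, 0], 0, rfl⟩ (S.tv 0 + S.dv ![1, 0]) ⟨0, ![1, 0], rfl⟩
  rw [hm_smul, Complex.im_ofReal_mul, S.H0_im] at hk
  refine ⟨k, ?_⟩
  rw [← hk]
  simp

/-- The primitive class below the class of the minimal function is fixed by `σ`, or there is a class `Γ` with `Γ² + 1 = b²` and
`(Γ - σ Γ)² = - 2`.
PROOF: let `P' = pull A S'.H0 ∈ NS` (`NF.pull_mem`, `H0_mem`), `H = n P'` (`H_eq`, `pull_smul`).  If `σ P' ≠ P'` then `σ H = n σ P' ≠ H` (`nsmul`).  `curve_of_neg2`: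
First case `n = 2 a`, `m = 2 b`, `b² = 2 d' a² + 1`: `Γ = a P'`, `2 pf Γ + 1 = b²` (`pf_smul`, `pf_pull`, `pf_H0`), `H = 2 Γ`, so `neg` gives
`(ip Γ P)² < 2 pf P b²`.  `σ Γ` is positive definite (`NAut.pd`) and `2 pf (σ Γ) + 1 = b²`; normal form `σ Γ = pull A'' (a'' H0'')`, `pf = a''² d''`, so
`b² = 2 d'' a''² + 1`; `exists_pell_section` gives `f ∈ Th (2 a'') 0 0`, `f ≠ 0`, `f ∈ Van (2 b) 0` and `of_classical` (`v = 2 a''`) a function `t ∈ TH (2 σ Γ)`, `2 σ Γ = σ H`,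
of order `≥ 2 b` (`van_comp_equiv`, `van_mul_unit`; as in `exists_neg`, q3/MiA.lean).
`Dch s`: `Copr s t` or `t ∈ Mult s`.  In the second case `t = s h`, `h ∈ TH (σ H - H)`, `h ≠ 0` (`TH_quot`, `SC_sub`), so `σ H - H` is positive semidefinite (`TH_psd`) and
`0` or positive definite (`Aniso.cases`); `σ H ≠ H`, and positive definite is impossible because `ip (σ H - H) P = 0` (`ip_pos`).
So `Copr s t` and `bezout_NS`: `4 b² ≤ ip H (σ H) = 4 ip Γ (σ Γ)`.  `num_part`.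
Second case `n = a` odd, `m = b`, `b² = 2 d' a² + 1`: `Γ = H`.  Normal form `σ H = pull A'' (n'' H0'')`, `b² = 2 d'' n''² + 1`.  `n''` is odd: if `n'' = 2 c` then `σ H = 2 K`,
`K = pull A'' (c H0'') ∈ NS`, `K = σ K₀` (`bij`), `H = 2 K₀` (injectivity), so `pull A ((n / 2) H0') ∈ NS`, `(n / 2) H0' ∈ S'.NS` (`pull_mem`) and `n / 2 = Im hm ((n/2) H0') (τ e₀) e₀`
(`H0_im`) is an integer.  `exists_pell_section2` and `of_classical` (`v = n''`): `t ∈ TH (σ H)` of order `≥ b`; as before `Copr s t` and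
`b² ≤ ip H (σ H)`.  `num_part`. -/
theorem neg2_fixed (hA : S.Aniso) {P H : Matrix (Fin 2) (Fin 2) ℂ} {χ s : C2 → ℂ} {m : ℕ} (hP : P ∈ S.NS) (hp : PD P)
    (N : S.Neg2 P H χ s m) (hD : S.Dch s) {S' : PerData} {n : ℕ} {A : C2 ≃ₗ[ℂ] C2} (hNF : S.NF H S' n A)
    {σ : Matrix (Fin 2) (Fin 2) ℂ → Matrix (Fin 2) (Fin 2) ℂ} (hσ : S.NAut σ) (hσP : σ P = P) :
    σ (pull A S'.H0) = pull A S'.H0 ∨ ∃ Γ ∈ S.NS, ∃ b : ℕ, 2 * S.pf Γ + 1 = (b : ℝ) ^ 2 ∧ S.pf (Γ - σ Γ) = -1 := by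
  by_cases hfix : σ (pull A S'.H0) = pull A S'.H0
  · exact Or.inl hfix
  right
  obtain ⟨P', hP'⟩ : ∃ P', P' = pull A S'.H0 := ⟨_, rfl⟩
  rw [← hP'] at hfix
  have hP'ns : P' ∈ S.NS := by
    rw [hP']
    exact hNF.pull_mem.2 S'.H0_mem
  have hHe : H = (n : ℂ) • P' := by
    rw [hP', ← pull_smul]
    exact hNF.H_eq
  have hn0 : (n : ℂ) ≠ 0 := by
    have := hNF.n_pos
    exact_mod_cast (by omega : n ≠ 0)
  have hσH : σ H = (n : ℂ) • σ P' := by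
    rw [hHe]
    exact hσ.nsmul hP'ns n
  have hne : σ H ≠ H := by
    intro h
    rw [hσH, hHe] at h
    exact hfix (GaN_smul_inj hn0 h)
  have hG := hσ.mem N.ns
  have hGp := hσ.pd N.ns N.pd
  have hpfP' : S.pf P' = S'.d := by
    rw [hP', hNF.pf_pull _ S'.H0_herm, S'.pf_H0]
  rcases S.curve_of_neg2 hP hp N hD hNF with ⟨a, b, s', hn, hm, C⟩ | ⟨a, b, s', hn, hm, hao, C⟩
  · -- first case
    obtain ⟨Γ, hΓe⟩ : ∃ Γ, Γ = (a : ℂ) • P' := ⟨_, rfl⟩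
    have hΓ : Γ ∈ S.NS := by
      rw [hΓe, Nat.cast_smul_eq_nsmul]
      exact S.NS.nsmul_mem hP'ns a
    have hHΓ : H = ((2 : ℝ) : ℂ) • Γ := by
      rw [hHe, hΓe, hn, smul_smul]
      push_cast
      rfl
    have hHΓ' : H = ((2 : ℕ) : ℂ) • Γ := by
      rw [hHΓ]
      push_cast
      rfl
    have hpfΓ : S.pf Γ = (a : ℝ) ^ 2 * S'.d := by
      have h1 := S.pf_smul (a : ℝ) P'
      rw [Complex.ofReal_natCast, ← hΓe, hpfP'] at h1
      exact h1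
    have hb : 2 * S.pf Γ + 1 = (b : ℝ) ^ 2 := by
      have h1 : (b : ℝ) ^ 2 = 2 * S'.d * (a : ℝ) ^ 2 + 1 := by exact_mod_cast C.pell
      rw [h1, hpfΓ]
      ring
    have hipH : ∀ Q ∈ S.NS, S.ip H Q = 2 * S.ip Γ Q := by
      intro Q hQ
      rw [hHΓ, S.ip_smul 2 hΓ.1 hQ.1]
    have hneg : S.ip Γ P ^ 2 < 2 * S.pf P * (b : ℝ) ^ 2 := by
      have h1 := N.neg
      rw [hipH P hP, hm] at h1
      push_cast at h1
      nlinarith
    have hσΓ := hσ.mem hΓ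
    have hΓp : PD Γ := by
      intro z hz
      have h1 := N.pd z hz
      rw [hHΓ, hm_smul, Complex.re_ofReal_mul] at h1
      linarith
    have hσΓp := hσ.pd hΓ hΓp
    have hσHΓ : σ H = ((2 : ℝ) : ℂ) • σ Γ := by
      rw [hHΓ', hσ.nsmul hΓ 2]
      push_cast
      rfl
    obtain ⟨T, c, B, hT⟩ := S.exists_NF hσΓ hσΓp
    have hc : 0 < c := hT.n_pos
    have hpell : b ^ 2 = 2 * T.d * c ^ 2 + 1 := by
      have h1 := hT.pf
      rw [hσ.pf _ hΓ] at h1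
      rw [h1] at hb
      have h2 : ((b ^ 2 : ℕ) : ℝ) = ((2 * T.d * c ^ 2 + 1 : ℕ) : ℝ) := by
        push_cast
        linarith
      exact_mod_cast h2
    obtain ⟨f, hf, -, hfv, hf0⟩ := T.exists_pell_section hc hpell
    obtain ⟨χ', t, hχ', ht, ht0, htv⟩ := S.GaN_sec hT hf hf0 hfv
    have hcl : pull B (((2 * c : ℤ) : ℂ) • T.H0) = σ H := by
      rw [hσHΓ, hT.H_eq, ← pull_smul, smul_smul]
      push_cast
      rfl
    rw [hcl] at hχ' ht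
    have h1 := S.GaN_bez hA hP hp N hD hσ hσP hne hχ' ht ht0 htv
    have h2 : S.ip H (σ H) = 4 * S.ip Γ (σ Γ) := by
      rw [hipH _ hG, hσHΓ, S.ip_comm Γ, S.ip_smul 2 hσΓ.1 hΓ.1, S.ip_comm (σ Γ)]
      ring
    refine ⟨Γ, hΓ, b, hb, S.num_part hσ hP hp hσP hΓ hb hneg ?_⟩
    rw [h2, hm] at h1
    push_cast at h1
    nlinarith
  · -- second case
    have hpfH : S.pf H = (n : ℝ) ^ 2 * S'.d := hNF.pf
    have hb : 2 * S.pf H + 1 = (b : ℝ) ^ 2 := by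
      have h1 : (b : ℝ) ^ 2 = 2 * S'.d * (a : ℝ) ^ 2 + 1 := by exact_mod_cast C.pell
      rw [h1, hpfH, hn]
      ring
    have hneg : S.ip H P ^ 2 < 2 * S.pf P * (b : ℝ) ^ 2 := by
      have h1 := N.neg
      rwa [hm] at h1
    obtain ⟨T, c, B, hT⟩ := S.exists_NF hG hGp
    have hpell : b ^ 2 = 2 * T.d * c ^ 2 + 1 := by
      have h1 := hT.pf
      rw [hσ.pf _ N.ns] at h1
      rw [h1] at hb
      have h2 : ((b ^ 2 : ℕ) : ℝ) = ((2 * T.d * c ^ 2 + 1 : ℕ) : ℝ) := by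
        push_cast
        linarith
      exact_mod_cast h2
    have hco : Odd c := by
      by_contra hce
      rw [Nat.not_odd_iff_even] at hce
      obtain ⟨e, he⟩ := hce.two_dvd
      obtain ⟨K, hK⟩ : ∃ K, K = pull B ((e : ℂ) • T.H0) := ⟨_, rfl⟩
      have hKns : K ∈ S.NS := by
        rw [hK]
        refine hT.pull_mem.2 ?_
        rw [Nat.cast_smul_eq_nsmul]
        exact T.NS.nsmul_mem T.H0_mem e
      obtain ⟨K₀, hK₀, hσK⟩ := hσ.bij.surjOn hKns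
      have h1 : σ H = σ (((2 : ℕ) : ℂ) • K₀) := by
        rw [hσ.nsmul hK₀ 2, hσK, hK, ← pull_smul, smul_smul, hT.H_eq, he]
        push_cast
        rfl
      have h2 : ((2 : ℕ) : ℂ) • K₀ ∈ S.NS := by
        rw [Nat.cast_smul_eq_nsmul]
        exact S.NS.nsmul_mem hK₀ 2
      have h3 : H = ((2 : ℕ) : ℂ) • K₀ := hσ.bij.injOn N.ns h2 h1
      have h4 : K₀ = pull A ((((n : ℝ) / 2 : ℝ) : ℂ) • S'.H0) := by
        have h5 : ((2 : ℕ) : ℂ) ≠ 0 := by norm_num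
        refine GaN_smul_inj h5 ?_
        rw [← h3, hHe, pull_smul, smul_smul, ← hP']
        congr 1
        push_cast
        ring
      rw [h4] at hK₀
      obtain ⟨k, hk⟩ := S'.GaN_half (hNF.pull_mem.1 hK₀)
      have h6 : (n : ℝ) = 2 * k := by linarith
      have h7 : (n : ℤ) = 2 * k := by exact_mod_cast h6
      rw [hn] at h7
      obtain ⟨j, hj⟩ := hao
      omega
    obtain ⟨f, hf, -, hfv, hf0⟩ := T.exists_pell_section2 hco hpell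
    obtain ⟨χ', t, hχ', ht, ht0, htv⟩ := S.GaN_sec hT hf hf0 hfv
    have hcl : pull B (((c : ℤ) : ℂ) • T.H0) = σ H := by
      rw [hT.H_eq, Int.cast_natCast]
    rw [hcl] at hχ' ht
    have h1 := S.GaN_bez hA hP hp N hD hσ hσP hne hχ' ht ht0 htv
    refine ⟨H, N.ns, b, hb, S.num_part hσ hP hp hσP N.ns hb hneg ?_⟩
    rw [hm] at h1
    push_cast at h1
    nlinarith

end PerData

end Q2T
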