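import Pool.Agent.H.MP_89f84f_ag.q4.CfB
import Pool.Agent.H.MP_89f84f_ag.q4.GaN

set_option autoImplicit false

open Complex Topology Filter Asymptotics Metric Set Module

namespace Q2T

namespace PerData

variable (S : PerData)

/-- The group of the classes fixed by `G`. -/
def Fix (G : Set (Matrix (Fin 2) (Fin 2) ℂ → Matrix (Fin 2) (Fin 2) ℂ)) (hG : ∀ σ ∈ G, S.NAut σ) :
    AddSubgroup (Matrix (Fin 2) (Fin 2) ℂ) where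
  carrier := {H | H ∈ S.NS ∧ ∀ σ ∈ G, σ H = H}
  zero_mem' := ⟨S.NS.zero_mem, fun σ h => (hG σ h).zero⟩
  add_mem' := fun {a b} ha hb => ⟨S.NS.add_mem ha.1 hb.1, fun σ h => by
    rw [(hG σ h).add _ ha.1 _ hb.1, ha.2 σ h, hb.2 σ h]⟩
  neg_mem' := fun {a} ha => ⟨S.NS.neg_mem ha.1, fun σ h => by rw [(hG σ h).neg ha.1, ha.2 σ h]⟩

variable {S} in
theorem fix_le {G : Set (Matrix (Fin 2) (Fin 2) ℂ → Matrix (Fin 2) (Fin 2) ℂ)} {hG : ∀ σ ∈ G, S.NAut σ} :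
    S.Fix G hG ≤ S.NS := fun _ h => h.1

variable {S} in
theorem fix_H0 {G : Set (Matrix (Fin 2) (Fin 2) ℂ → Matrix (Fin 2) (Fin 2) ℂ)} {hG : ∀ σ ∈ G, S.NAut σ} :
    S.H0 ∈ S.Fix G hG := ⟨S.H0_mem, fun σ h => (hG σ h).H0⟩

variable {S} in
theorem fix_sat {G : Set (Matrix (Fin 2) (Fin 2) ℂ → Matrix (Fin 2) (Fin 2) ℂ)} {hG : ∀ σ ∈ G, S.NAut σ}
    {Γ : Matrix (Fin 2) (Fin 2) ℂ} (hΓ : Γ ∈ S.NS) {n : ℕ} (hn : 1 ≤ n) (h : (n : ℂ) • Γ ∈ S.Fix G hG) :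
    Γ ∈ S.Fix G hG := by
  refine ⟨hΓ, fun σ hσ => ?_⟩
  have h1 := h.2 σ hσ
  rw [(hG σ hσ).nsmul hΓ n] at h1
  have hn' : (n : ℂ) ≠ 0 := Nat.cast_ne_zero.2 (by omega)
  exact smul_right_injective _ hn' h1

/-- If `2 d` is not a square or `C` has rank at least two, then some positive definite class in `C` has nonsquare
self-intersection number. -/
theorem exists_nonsquare_of {C : AddSubgroup (Matrix (Fin 2) (Fin 2) ℂ)} (hC : C ≤ S.NS) (hH0 : S.H0 ∈ C)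
    (h : ¬ IsSquare (2 * S.d) ∨ ∃ H ∈ C, ∀ r : ℝ, H ≠ (r : ℂ) • S.H0) :
    ∃ Γ ∈ C, PD Γ ∧ ¬ ∃ r : ℕ, (r : ℝ) ^ 2 = 2 * S.pf Γ := by
  by_contra hcon
  push Not at hcon
  have hd : (0 : ℝ) < S.d := by exact_mod_cast S.d_pos
  obtain ⟨e, he⟩ := hcon S.H0 hH0 S.H0_pd
  rw [S.pf_H0] at he
  have heN : e ^ 2 = 2 * S.d := by exact_mod_cast he
  rcases h with h | ⟨H, hHC, hne⟩
  · exact h ⟨e, by rw [← heN, sq]⟩
  have hH := hC hHC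
  have he0 : (0 : ℤ) < e := by
    have h1 := S.d_pos
    have h2 : e ≠ 0 := by
      rintro rfl
      rw [zero_pow two_ne_zero] at heN
      omega
    exact_mod_cast Nat.pos_of_ne_zero h2
  obtain ⟨B, hB⟩ := S.dg_int hH
  obtain ⟨D, hD⟩ := S.pf_int hH
  obtain ⟨M₀, hM₀⟩ := exists_sub_pd (G := -H) S.H0_pd
  have hsq : ∃ n₀ : ℕ, ∀ n : ℕ, n₀ ≤ n → ∃ r : ℤ, r ^ 2 = (e : ℤ) ^ 2 * n ^ 2 + (2 * B) * n + 2 * D := by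
    refine ⟨M₀, fun n hn => ?_⟩
    have h1 := hM₀ n hn
    rw [sub_neg_eq_add] at h1
    have h2 : (n : ℂ) • S.H0 + H ∈ C := by
      refine C.add_mem ?_ hHC
      have h3 : (n : ℂ) • S.H0 = n • S.H0 := Nat.cast_smul_eq_nsmul ℂ n S.H0
      rw [h3]
      exact C.nsmul_mem hH0 n
    obtain ⟨r, hr⟩ := hcon _ h2 h1
    refine ⟨r, ?_⟩
    have h3 : S.pf ((n : ℂ) • S.H0 + H) = (n : ℝ) ^ 2 * S.d + n * S.dg H + S.pf H := by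
      have := S.pf_add_H0 hH.1 (n : ℝ)
      rwa [Complex.ofReal_natCast] at this
    rw [h3, hB, hD] at hr
    have h4 : ((r : ℝ)) ^ 2 = (e : ℝ) ^ 2 * n ^ 2 + (2 * B) * n + 2 * D := by
      rw [hr, he]
      ring
    exact_mod_cast h4
  have hdisc := disc_of_squares he0 hsq
  have h5 : (S.dg H) ^ 2 = 4 * S.d * S.pf H := by
    rw [hB, hD]
    have h6 : ((2 * B : ℤ) : ℝ) ^ 2 = 4 * (e : ℝ) ^ 2 * ((2 * D : ℤ) : ℝ) := by exact_mod_cast hdisc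
    push_cast at h6
    rw [he] at h6
    linarith
  exact hne _ (S.prop_of_disc hH.1 h5)

/-- A curve whose class is fixed by `G`. -/
theorem exists_curve_fix (hA : S.Aniso) {G : Set (Matrix (Fin 2) (Fin 2) ℂ → Matrix (Fin 2) (Fin 2) ℂ)}
    (hG : ∀ σ ∈ G, S.NAut σ)
    (hδ : ∀ σ ∈ G, ∀ Γ ∈ S.NS, ∀ b : ℕ, 2 * S.pf Γ + 1 = (b : ℝ) ^ 2 → S.pf (Γ - σ Γ) ≠ -1)
    (h2 : ¬ IsSquare (2 * S.d) ∨ ∃ H ∈ S.Fix G hG, ∀ r : ℝ, H ≠ (r : ℂ) • S.H0) :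
    ∃ (H : Matrix (Fin 2) (Fin 2) ℂ) (S' : PerData) (n : ℕ) (A : C2 ≃ₗ[ℂ] C2), S.NF H S' n A ∧
      pull A S'.H0 ∈ S.Fix G hG ∧
      ((∃ (a b : ℕ) (s : C2 → ℂ), S'.Curve a b s) ∨ ∃ (a b : ℕ) (s : C2 → ℂ), S'.Curve2 a b s) := by
  obtain ⟨P, hPC, hp, hsq⟩ := S.exists_nonsquare_of fix_le fix_H0 h2
  have hP : P ∈ S.NS := hPC.1
  obtain ⟨H, χ, s, m, N, hD⟩ := S.exists_neg2_dch hA hP hp hsq
  obtain ⟨S', n, A, hNF⟩ := S.exists_NF N.ns N.pd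
  refine ⟨H, S', n, A, hNF, ⟨hNF.pull_mem.2 S'.H0_mem, fun σ hσ => ?_⟩, ?_⟩
  · rcases S.neg2_fixed hA hP hp N hD hNF (hG σ hσ) (hPC.2 σ hσ) with h | ⟨Γ, h1, b, h3, h4⟩
    · exact h
    · exact absurd h4 (hδ σ hσ Γ h1 b h3)
  · rcases S.curve_of_neg2 hP hp N hD hNF with ⟨a, b, s', -, -, h⟩ | ⟨a, b, s', -, -, -, h⟩
    · exact Or.inl ⟨a, b, s', h⟩
    · exact Or.inr ⟨a, b, s', h⟩

end PerData

namespace CForm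

variable {S : PerData} {G : Set (Matrix (Fin 2) (Fin 2) ℂ → Matrix (Fin 2) (Fin 2) ℂ)} {hG : ∀ σ ∈ G, S.NAut σ}
  {k : Subfield ℂ} (N : CForm S (S.Fix G hG) k) [NumberField k]

/-- Quadratic points are dense. -/
theorem dense_quad_fix (hA : S.Aniso)
    (hδ : ∀ σ ∈ G, ∀ Γ ∈ S.NS, ∀ b : ℕ, 2 * S.pf Γ + 1 = (b : ℝ) ^ 2 → S.pf (Γ - σ Γ) ≠ -1)
    (h2 : ¬ IsSquare (2 * S.d) ∨ ∃ H ∈ S.Fix G hG, ∀ r : ℝ, H ≠ (r : ℂ) • S.H0)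
    {K : KForm S k} (hK : ∀ (m : ℕ) (f : C2 → ℂ), f ∈ K.R m ↔
      (fun z => S.gz (2 * m) z * f z) ∈ N.R ((m : ℂ) • S.H0))
    {M : ℤ} {F : C2 → ℂ} (hF : F ∈ S.Th M 0 0) (hz : ∀ z, finrank k (K.fld z) = 2 → F z = 0) : F = 0 := by
  obtain ⟨H, S', n, A, hNF, hPm, hC⟩ := S.exists_curve_fix hA hG hδ h2
  exact N.dense_half hK hNF hPm hC hF fun z h => hz z (K.finrank_of_half h)

end CForm

end Q2T
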